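import Pool.Agent.H75H.ChainCount

set_option autoImplicit false

/-
Proof sketch (helper75). B ≥ 1. Split the set by the block number b = (i - n0) / B (b ≤ n1 / B) and, in
the block [n0 + b B, n0 + (b+1) B), by r = (i + 1) % 3, w = v i ∈ Icc 1 Q and U ∈ Ico 0 w with
w ∣ uu i - U. `chain_count` with e = 0, ℓ = w, D' = T + 6, m = M bounds each part by
2 B / w ρ^M / θ^μ (w ∣ i' - i: w ∣ x i, x i', `x_shift` with t = 0; gcd (v j) w divides
|x j - x i| ≤ T + 6, nonzero by `v_dup`, since x ≥ s/2 and 5 Q^2 < s/2; w Q^M ≤ Q^(M+1) ≤ B).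
Sum over U < w, w ≤ Q, r < 3: a block has at most 6 B Q ρ^M / θ^μ elements; there are at most
n1 / B + 1 blocks.
-/

namespace Pool.Agent.H75H

open Pool.Agent.H5.GR

/-- bound for a set by a bound for the fibres -/
private theorem card_fib (A : Finset ℕ) (f : ℕ → ℕ) (I : Finset ℕ) (hf : ∀ i ∈ A, f i ∈ I) (c : ℝ)
    (hc : ∀ k ∈ I, ((A.filter (fun i => f i = k)).card : ℝ) ≤ c) : (A.card : ℝ) ≤ I.card * c := by
  have h1 := Finset.card_eq_sum_card_fiberwise (f := f) (s := A) (t := I) (fun i hi => hf i hi)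
  calc (A.card : ℝ) = ∑ k ∈ I, ((A.filter (fun i => f i = k)).card : ℝ) := by
        rw [h1]; push_cast; rfl
    _ ≤ ∑ k ∈ I, c := Finset.sum_le_sum hc
    _ = I.card * c := by rw [Finset.sum_const, nsmul_eq_mul]

/-- gcd bound -/
private theorem gcd_bound (N n0 n1 : ℕ) (s C : ℝ) (hw : Win N n0 n1 s C) (Q T i j : ℕ)
    (hQs : 10 * (Q : ℝ) ^ 2 < s) (hi : n0 ≤ i) (hij : i < j) (hj : j ≤ i + T) (hvi : v N i ≤ Q)
    (hvj : v N j ≤ Q) : Nat.gcd (v N j) (v N i) ≤ T + 6 := by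
  have hi1 : 1 ≤ i := hw.one_le.trans hi
  have hne : x i ≠ x j := by
    intro h
    have h1 := Pool.Agent.H75G.v_dup N i j hi1 hij h
    have h2 : (x i : ℝ) ≤ 5 * ((v N i : ℝ) * v N j) := by exact_mod_cast h1
    have h3 : (v N i : ℝ) ≤ Q := by exact_mod_cast hvi
    have h4 : (v N j : ℝ) ≤ Q := by exact_mod_cast hvj
    have h5 : (v N i : ℝ) * v N j ≤ Q * Q :=
      mul_le_mul h3 h4 (Nat.cast_nonneg _) (Nat.cast_nonneg _)
    have h6 : (i : ℝ) + 1 ≤ x i := by exact_mod_cast x_ge i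
    have h7 : (n0 : ℝ) ≤ i := by exact_mod_cast hi
    have h8 := hw.low
    nlinarith
  have hd1 : (Nat.gcd (v N j) (v N i) : ℤ) ∣ (x j : ℤ) - x i := by
    refine dvd_sub ?_ ?_
    · exact Int.natCast_dvd_natCast.mpr ((Nat.gcd_dvd_left _ _).trans (v_dvd_x N j))
    · exact Int.natCast_dvd_natCast.mpr ((Nat.gcd_dvd_right _ _).trans (v_dvd_x N i))
  have hne' : (x j : ℤ) - x i ≠ 0 := by
    intro h
    apply hne
    have : (x j : ℤ) = x i := by linarith
    exact_mod_cast this.symm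
  have h1 := Int.le_of_dvd (abs_pos.mpr hne') ((dvd_abs _ _).mpr hd1)
  have h2 : |(x j : ℤ) - x i| ≤ T + 6 := by
    have h3 := x_le j
    have h4 := x_ge j
    have h5 := x_le i
    have h6 := x_ge i
    rw [abs_le]
    constructor <;> omega
  have h3 : (Nat.gcd (v N j) (v N i) : ℤ) ≤ T + 6 := h1.trans h2
  exact_mod_cast h3

open Classical in
/-- the number of starts of typical chains with many middle elements -/
theorem all_count (N n0 n1 : ℕ) (s C : ℝ) (hw : Win N n0 n1 s C) (B T Q P1 P Tp D M μ : ℕ)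
    (θ ρ : ℝ) (hQ : 1 ≤ Q) (hQs : 10 * (Q : ℝ) ^ 2 < s)
    (hB : 24 * C * ((B : ℝ) + 2 * T + 8) * Q ≤ s) (hP1 : 1 ≤ P1) (hθ : 1 ≤ θ)
    (hD : (T + 6) ^ (M + 1) ≤ D) (hQB : Q ^ (M + 1) ≤ B)
    (hρ : (Tp : ℝ) * (48 * (T : ℝ) + 100 + θ * (4 * (D : ℝ) / P1 + (48 * (T : ℝ) + 96) * P / Q)) ≤ ρ) :
    (((Finset.Ico n0 n1).filter (fun i => i + T < n1 ∧ typ T Tp i ∧ v N i ≤ Q ∧
      chn N Q P1 P M i μ (i + T))).card : ℝ) ≤ 6 * ((n1 : ℝ) + B) * Q * ρ ^ M / θ ^ μ := by
  set A := (Finset.Ico n0 n1).filter (fun i => i + T < n1 ∧ typ T Tp i ∧ v N i ≤ Q ∧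
      chn N Q P1 P M i μ (i + T)) with hA
  have hB1 : 1 ≤ B := (Nat.one_le_pow _ _ hQ).trans hQB
  have hB0 : (0 : ℝ) < B := by exact_mod_cast hB1
  have hθ0 : 0 < θ ^ μ := by positivity
  have hρ0 : 0 ≤ ρ := le_trans (by positivity) hρ
  set R : ℝ := ρ ^ M / θ ^ μ with hR
  have hR0 : 0 ≤ R := by positivity
  have memA : ∀ i, i ∈ A → (n0 ≤ i ∧ i < n1) ∧ i + T < n1 ∧ typ T Tp i ∧ v N i ≤ Q ∧
      chn N Q P1 P M i μ (i + T) := by
    intro i hi
    rw [hA, Finset.mem_filter, Finset.mem_Ico] at hi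
    exact hi
  -- one part
  have part : ∀ bb r w U : ℕ, 1 ≤ w → w ≤ Q → ∀ F : Finset ℕ, F ⊆ A →
      (∀ i ∈ F, (i - n0) / B = bb) → (∀ i ∈ F, (i + 1) % 3 = r) → (∀ i ∈ F, v N i = w) →
      (∀ i ∈ F, (w : ℤ) ∣ uu N i - (U : ℤ)) → (F.card : ℝ) ≤ 2 * B / w * R := by
    intro bb r w U hw1 hwQ F hFA hFb hFr hFw hFU
    have key := chain_count N n0 n1 s C hw (n0 + bb * B) B T Q P1 P Tp D θ ρ (by omega) hQ hQs hB
      hP1 hθ hρ M F w 0 w μ (T + 6) U hw1 (by rw [← pow_succ']; exact hD)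
      (by
        calc w * Q ^ M ≤ Q * Q ^ M := Nat.mul_le_mul_right _ hwQ
          _ = Q ^ (M + 1) := by rw [pow_succ']
          _ ≤ B := hQB) hwQ
      (fun i hi => by
        have h1 := memA i (hFA hi)
        have h2 := hFb i hi
        have h3 := Nat.div_mul_le_self (i - n0) B
        have h4 := Nat.lt_div_mul_add (a := i - n0) (b := B) (by omega)
        rw [h2] at h3 h4
        refine ⟨by omega, by omega, h1.2.1⟩)
      (fun i hi i' hi' hii' => by
        have hr1 := hFr i hi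
        have hr2 := hFr i' hi'
        refine ⟨?_, by omega⟩
        have h1 := x_shift i i' hii' (by omega) 0
        simp only [add_zero] at h1
        have h2 : w ∣ x i := by rw [← hFw i hi]; exact v_dvd_x N i
        have h3 : w ∣ x i' := by rw [← hFw i' hi']; exact v_dvd_x N i'
        rw [h1] at h3
        exact (Nat.dvd_add_right h2).mp h3)
      (fun i hi => (memA i (hFA hi)).2.2.1)
      (fun i hi => (memA i (hFA hi)).2.2.2.2)
      (fun i hi => ⟨hFw i hi, hFU i hi⟩)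
      (fun i hi j hj1 hj2 hj3 => by
        rw [← hFw i hi]
        exact gcd_bound N n0 n1 s C hw Q T i j hQs (memA i (hFA hi)).1.1 (by omega) hj2
          (memA i (hFA hi)).2.2.2.1 hj3)
    calc (F.card : ℝ) ≤ 2 * B / w * ρ ^ M / θ ^ μ := key
      _ = 2 * B / w * R := by rw [hR]; ring
  -- sum over U
  have s1 : ∀ bb r w : ℕ, 1 ≤ w → w ≤ Q → ∀ F : Finset ℕ, F ⊆ A →
      (∀ i ∈ F, (i - n0) / B = bb) → (∀ i ∈ F, (i + 1) % 3 = r) → (∀ i ∈ F, v N i = w) →
      (F.card : ℝ) ≤ 2 * B * R := by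
    intro bb r w hw1 hwQ F hFA hFb hFr hFw
    have hwz : (0 : ℤ) < w := by exact_mod_cast hw1
    have h1 := card_fib F (fun i => (uu N i % (w : ℤ)).toNat) (Finset.range w)
      (fun i hi => by
        rw [Finset.mem_range]
        have h1 := Int.emod_nonneg (uu N i) hwz.ne'
        have h2 := Int.emod_lt_of_pos (uu N i) hwz
        show (uu N i % (w : ℤ)).toNat < w
        omega) (2 * B / w * R)
      (fun U hU => by
        refine part bb r w U hw1 hwQ _ ((Finset.filter_subset _ _).trans hFA) ?_ ?_ ?_ ?_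
        · intro i hi; exact hFb i (Finset.mem_filter.mp hi).1
        · intro i hi; exact hFr i (Finset.mem_filter.mp hi).1
        · intro i hi; exact hFw i (Finset.mem_filter.mp hi).1
        · intro i hi
          have h2 : (uu N i % (w : ℤ)).toNat = U := (Finset.mem_filter.mp hi).2
          have h3 := Int.emod_nonneg (uu N i) hwz.ne'
          have h4 : (U : ℤ) = uu N i % (w : ℤ) := by rw [← h2]; exact Int.toNat_of_nonneg h3
          rw [h4]
          exact Int.dvd_self_sub_emod)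
    rw [Finset.card_range] at h1
    have hw0 : (w : ℝ) ≠ 0 := by
      have : (0 : ℝ) < w := by exact_mod_cast hw1
      exact this.ne'
    calc (F.card : ℝ) ≤ w * (2 * B / w * R) := h1
      _ = 2 * B * R := by field_simp
  -- sum over w
  have s2 : ∀ bb r : ℕ, ∀ F : Finset ℕ, F ⊆ A →
      (∀ i ∈ F, (i - n0) / B = bb) → (∀ i ∈ F, (i + 1) % 3 = r) →
      (F.card : ℝ) ≤ Q * (2 * B * R) := by
    intro bb r F hFA hFb hFr
    have h1 := card_fib F (fun i => v N i) (Finset.Icc 1 Q)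
      (fun i hi => by
        rw [Finset.mem_Icc]
        exact ⟨v_pos N i, (memA i (hFA hi)).2.2.2.1⟩) (2 * B * R)
      (fun w hwI => by
        rw [Finset.mem_Icc] at hwI
        refine s1 bb r w hwI.1 hwI.2 _ ((Finset.filter_subset _ _).trans hFA) ?_ ?_ ?_
        · intro i hi; exact hFb i (Finset.mem_filter.mp hi).1
        · intro i hi; exact hFr i (Finset.mem_filter.mp hi).1
        · intro i hi; exact (Finset.mem_filter.mp hi).2)
    rw [Nat.card_Icc, Nat.add_sub_cancel] at h1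
    exact h1
  -- sum over r
  have s3 : ∀ bb : ℕ, ∀ F : Finset ℕ, F ⊆ A → (∀ i ∈ F, (i - n0) / B = bb) →
      (F.card : ℝ) ≤ 3 * (Q * (2 * B * R)) := by
    intro bb F hFA hFb
    have h1 := card_fib F (fun i => (i + 1) % 3) (Finset.range 3)
      (fun i hi => by
        rw [Finset.mem_range]
        exact Nat.mod_lt _ (by norm_num)) (Q * (2 * B * R))
      (fun r hr => by
        refine s2 bb r _ ((Finset.filter_subset _ _).trans hFA) ?_ ?_
        · intro i hi; exact hFb i (Finset.mem_filter.mp hi).1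
        · intro i hi; exact (Finset.mem_filter.mp hi).2)
    rw [Finset.card_range] at h1
    exact_mod_cast h1
  -- sum over the blocks
  have s4 := card_fib A (fun i => (i - n0) / B) (Finset.range (n1 / B + 1))
    (fun i hi => by
      rw [Finset.mem_range]
      have h1 := (memA i hi).1
      exact Nat.lt_succ_of_le (Nat.div_le_div_right (by omega))) (3 * (Q * (2 * B * R)))
    (fun bb hbb => by
      refine s3 bb _ (Finset.filter_subset _ _) ?_
      intro i hi
      exact (Finset.mem_filter.mp hi).2)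
  rw [Finset.card_range] at s4
  have h5 : ((n1 / B + 1 : ℕ) : ℝ) * B ≤ n1 + B := by
    have : (n1 / B + 1) * B ≤ n1 + B := by
      have := Nat.div_mul_le_self n1 B
      nlinarith
    exact_mod_cast this
  calc (A.card : ℝ) ≤ ((n1 / B + 1 : ℕ) : ℝ) * (3 * (Q * (2 * B * R))) := s4
    _ = (((n1 / B + 1 : ℕ) : ℝ) * B) * (6 * Q * R) := by ring
    _ ≤ ((n1 : ℝ) + B) * (6 * Q * R) := mul_le_mul_of_nonneg_right h5 (by positivity)
    _ = 6 * ((n1 : ℝ) + B) * Q * ρ ^ M / θ ^ μ := by rw [hR]; ring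

end Pool.Agent.H75H
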