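import Pool.Agent.H75G.Defs

set_option autoImplicit false

namespace Pool.Agent.H75H

open Pool.Agent.H5.GR

/-- the integer `a N n / g N n` -/
def uu (N n : ℕ) : ℤ := a N n / (g N n : ℤ)

theorem uu_mul (N n : ℕ) : (g N n : ℤ) * uu N n = a N n :=
  Int.mul_ediv_cancel' (g_dvd_a N n)

theorem uu_coprime (N n : ℕ) : Int.gcd (uu N n) (v N n : ℤ) = 1 := by
  have hg : 0 < g N n := g_pos N n
  have h1 : Int.gcd (a N n) (x n : ℤ) = g N n := by
    unfold g x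
    rfl
  have h2 : (x n : ℤ) = (g N n : ℤ) * (v N n : ℤ) := by
    exact_mod_cast (g_mul_v N n).symm
  rw [← uu_mul N n, h2, Int.gcd_mul_left] at h1
  have h3 : (g N n : ℤ).natAbs = g N n := Int.natAbs_natCast _
  rw [h3] at h1
  exact Nat.eq_of_mul_eq_mul_left hg (by rw [h1, mul_one])

/-- the numbers `x (i + o)`, `o ≤ T`, have at most `Tp` divisors altogether -/
def typ (T Tp i : ℕ) : Prop := ∑ o ∈ Finset.range (T + 1), (Nat.divisors (x (i + o))).card ≤ Tp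

/-- `m` successive indices with `v ≤ Q` after `c`, all at most `R`, at least `μ` of them with
`P1 ≤ v ≤ P` -/
def chn (N Q P1 P : ℕ) : ℕ → ℕ → ℕ → ℕ → Prop
  | 0, _, μ, _ => μ = 0
  | (m + 1), c, μ, R => ∃ c', c < c' ∧ c' ≤ R ∧ v N c' ≤ Q ∧ (∀ l, c < l → l < c' → Q < v N l) ∧
      chn N Q P1 P m c' (if P1 ≤ v N c' ∧ v N c' ≤ P then μ - 1 else μ) R

/-- `m` successive elements of `S` after `c`, all at most `R`, at least `μ` of them in `D` -/
def chC (S D : Finset ℕ) : ℕ → ℕ → ℕ → ℕ → Prop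
  | 0, _, μ, _ => μ = 0
  | (m + 1), c, μ, R => ∃ c' ∈ S, c < c' ∧ c' ≤ R ∧ (∀ l ∈ S, ¬ (c < l ∧ l < c')) ∧
      chC S D m c' (if c' ∈ D then μ - 1 else μ) R

end Pool.Agent.H75H
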