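import Mathlib

set_option autoImplicit false

/-
Proof sketch (helper75). Group the pairs p = (u, w) by j = Nat.log 2 w (2^j ≤ w < 2^(j+1)).
Two different pairs of one group give different fractions (both reduced, w > 0), and
|u/w - u'/w'| = |u w' - u' w| / (w w') ≥ d / (w w') ≥ d / 4^(j+1), because d divides w and w', so the
nonzero integer u w' - u' w is a multiple of d. All fractions lie in [z - ε, z + ε], so a group has at
most 2 ε 4^(j+1) / d + 1 elements (points of an interval of length 2 ε with pairwise distance ≥ δ: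
for instance the map p ↦ ⌊(u/w - (z - ε)) / δ⌋ into range (⌊2 ε / δ⌋ + 1) is injective), each with
d / w ≤ d / 2^j: the group contributes ≤ d / 2^j + 8 ε 2^j. Sum over Nat.log 2 lo ≤ j ≤ Nat.log 2 hi:
geometric series, 2^(log lo) > lo / 2 and 2^(log hi) ≤ hi.
-/

namespace Pool.Agent.H75H

private theorem sep_card {ι : Type*} (Y : Finset ι) (f : ι → ℝ) (z ε δ : ℝ) (hδ : 0 < δ)
    (hε : 0 ≤ ε) (h1 : ∀ p ∈ Y, |f p - z| ≤ ε)
    (h2 : ∀ p ∈ Y, ∀ q ∈ Y, p ≠ q → δ ≤ |f p - f q|) :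
    (Y.card : ℝ) ≤ 2 * ε / δ + 1 := by
  have hcard : Y.card ≤ (Finset.range (⌊2 * ε / δ⌋₊ + 1)).card := by
    apply Finset.card_le_card_of_injOn (fun p => ⌊(f p - (z - ε)) / δ⌋₊)
    · intro p hp
      have h := abs_le.1 (h1 p hp)
      simp only [Finset.coe_range, Set.mem_Iio]
      apply Nat.lt_succ_of_le
      apply Nat.floor_le_floor
      apply div_le_div_of_nonneg_right _ hδ.le
      linarith
    · intro p hp q hq hpq
      by_contra hne
      have h := h2 p hp q hq hne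
      have hp1 := abs_le.1 (h1 p hp)
      have hq1 := abs_le.1 (h1 q hq)
      have hp0 : 0 ≤ (f p - (z - ε)) / δ := div_nonneg (by linarith) hδ.le
      have hq0 : 0 ≤ (f q - (z - ε)) / δ := div_nonneg (by linarith) hδ.le
      have a1 := Nat.floor_le hp0
      have a2 := Nat.lt_floor_add_one ((f p - (z - ε)) / δ)
      have b1 := Nat.floor_le hq0
      have b2 := Nat.lt_floor_add_one ((f q - (z - ε)) / δ)
      simp only at hpq
      rw [hpq] at a1 a2
      have hlt : |(f p - (z - ε)) / δ - (f q - (z - ε)) / δ| < 1 := by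
        rw [abs_lt]
        constructor <;> linarith
      have heq : (f p - (z - ε)) / δ - (f q - (z - ε)) / δ = (f p - f q) / δ := by
        rw [← sub_div]
        congr 1
        ring
      rw [heq, abs_div, abs_of_pos hδ, div_lt_one hδ] at hlt
      linarith
  rw [Finset.card_range] at hcard
  have h3 : (Y.card : ℝ) ≤ (⌊2 * ε / δ⌋₊ : ℝ) + 1 := by exact_mod_cast hcard
  have h4 : (⌊2 * ε / δ⌋₊ : ℝ) ≤ 2 * ε / δ :=
    Nat.floor_le (div_nonneg (by linarith) hδ.le)
  linarith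

private theorem frac_sep (d : ℕ) (u u' : ℤ) (w w' : ℕ) (hw : 0 < w) (hw' : 0 < w')
    (hdw : d ∣ w) (hdw' : d ∣ w') (h : Int.gcd u (w : ℤ) = 1) (h' : Int.gcd u' (w' : ℤ) = 1)
    (hne : (u, w) ≠ (u', w')) :
    (d : ℝ) / ((w : ℝ) * w') ≤ |(u : ℝ) / w - (u' : ℝ) / w'| := by
  have hwR : (0 : ℝ) < w := by exact_mod_cast hw
  have hwR' : (0 : ℝ) < w' := by exact_mod_cast hw'
  have hnz : u * (w' : ℤ) - u' * (w : ℤ) ≠ 0 := by
    intro h0
    have he : u * (w' : ℤ) = u' * (w : ℤ) := by linarith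
    have c1 : IsCoprime (w : ℤ) u := by
      rw [Int.isCoprime_iff_gcd_eq_one, Int.gcd_comm]
      exact h
    have c2 : IsCoprime (w' : ℤ) u' := by
      rw [Int.isCoprime_iff_gcd_eq_one, Int.gcd_comm]
      exact h'
    have d1 : (w : ℤ) ∣ (w' : ℤ) := by
      apply c1.dvd_of_dvd_mul_left
      rw [he]
      exact Dvd.intro_left _ rfl
    have d2 : (w' : ℤ) ∣ (w : ℤ) := by
      apply c2.dvd_of_dvd_mul_left
      rw [← he]
      exact Dvd.intro_left _ rfl
    have e1 : w = w' := Nat.dvd_antisymm (Int.natCast_dvd_natCast.1 d1)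
      (Int.natCast_dvd_natCast.1 d2)
    subst e1
    have hw0 : (w : ℤ) ≠ 0 := by exact_mod_cast hw.ne'
    have e2 : u = u' := mul_right_cancel₀ hw0 he
    exact hne (by rw [e2])
  have hdvd : (d : ℤ) ∣ u * (w' : ℤ) - u' * (w : ℤ) := by
    apply Int.dvd_sub
    · exact Dvd.dvd.mul_left (Int.natCast_dvd_natCast.2 hdw') _
    · exact Dvd.dvd.mul_left (Int.natCast_dvd_natCast.2 hdw) _
  have hle : (d : ℤ) ≤ |u * (w' : ℤ) - u' * (w : ℤ)| := by
    apply Int.le_of_dvd (abs_pos.2 hnz)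
    exact (dvd_abs _ _).2 hdvd
  have hleR : (d : ℝ) ≤ |(u : ℝ) * w' - (u' : ℝ) * w| := by exact_mod_cast hle
  have heq : (u : ℝ) / w - (u' : ℝ) / w' = ((u : ℝ) * w' - (u' : ℝ) * w) / ((w : ℝ) * w') := by
    field_simp
  rw [heq, abs_div, abs_of_pos (mul_pos hwR hwR')]
  exact div_le_div_of_nonneg_right hleR (mul_pos hwR hwR').le

/-- reduced fractions near `z` with denominators divisible by `d` -/
theorem farey (z ε : ℝ) (hε : 0 ≤ ε) (d lo hi : ℕ) (hd : 1 ≤ d) (hlo : 1 ≤ lo)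
    (X : Finset (ℤ × ℕ))
    (hX : ∀ p ∈ X, lo ≤ p.2 ∧ p.2 ≤ hi ∧ d ∣ p.2 ∧ Int.gcd p.1 (p.2 : ℤ) = 1 ∧
      |(p.1 : ℝ) / (p.2 : ℝ) - z| ≤ ε) :
    ∑ p ∈ X, (d : ℝ) / (p.2 : ℝ) ≤ 4 * d / lo + 16 * ε * hi := by
  have hdR : (0 : ℝ) < d := by exact_mod_cast hd
  have hloR : (0 : ℝ) < lo := by exact_mod_cast hlo
  rcases Nat.eq_zero_or_pos hi with hhi | hhi
  · have hE : X = ∅ := by
      rw [Finset.eq_empty_iff_forall_notMem]
      intro p hp
      have := hX p hp
      omega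
    rw [hE, Finset.sum_empty]
    positivity
  have hmaps : ∀ p ∈ X, Nat.log 2 p.2 ∈ Finset.Icc (Nat.log 2 lo) (Nat.log 2 hi) := by
    intro p hp
    obtain ⟨h1, h2, -⟩ := hX p hp
    rw [Finset.mem_Icc]
    exact ⟨Nat.log_mono_right h1, Nat.log_mono_right h2⟩
  rw [← Finset.sum_fiberwise_of_maps_to hmaps]
  have hgroup : ∀ j ∈ Finset.Icc (Nat.log 2 lo) (Nat.log 2 hi),
      ∑ p ∈ X with Nat.log 2 p.2 = j, (d : ℝ) / (p.2 : ℝ) ≤ d / 2 ^ j + 8 * ε * 2 ^ j := by
    intro j _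
    have hY : ∀ p ∈ X.filter (fun p => Nat.log 2 p.2 = j), 2 ^ j ≤ p.2 ∧ p.2 < 2 ^ (j + 1) := by
      intro p hp
      rw [Finset.mem_filter] at hp
      obtain ⟨hpX, hpj⟩ := hp
      have hpos : p.2 ≠ 0 := by
        have := (hX p hpX).1
        omega
      rw [← hpj]
      exact ⟨Nat.pow_log_le_self 2 hpos, Nat.lt_pow_succ_log_self (by norm_num) _⟩
    have h2j : (0 : ℝ) < 2 ^ j := by positivity
    have hc := sep_card (X.filter (fun p => Nat.log 2 p.2 = j))
      (fun p => (p.1 : ℝ) / (p.2 : ℝ)) z ε ((d : ℝ) / 4 ^ (j + 1)) (by positivity) hε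
      (by
        intro p hp
        exact (hX p (Finset.mem_of_mem_filter p hp)).2.2.2.2)
      (by
        intro p hp q hq hpq
        have hp1 := hX p (Finset.mem_of_mem_filter p hp)
        have hq1 := hX q (Finset.mem_of_mem_filter q hq)
        have hp2 := hY p hp
        have hq2 := hY q hq
        have hpp : 0 < p.2 := by omega
        have hqq : 0 < q.2 := by omega
        have hs := frac_sep d p.1 q.1 p.2 q.2 hpp hqq hp1.2.2.1 hq1.2.2.1 hp1.2.2.2.1
          hq1.2.2.2.1 (by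
            intro he
            apply hpq
            exact he)
        refine le_trans ?_ hs
        have hppR : (0 : ℝ) < p.2 := by exact_mod_cast hpp
        have hqqR : (0 : ℝ) < q.2 := by exact_mod_cast hqq
        apply div_le_div_of_nonneg_left hdR.le (by positivity)
        have e4 : (4 : ℝ) ^ (j + 1) = 2 ^ (j + 1) * 2 ^ (j + 1) := by
          rw [← mul_pow]
          norm_num
        rw [e4]
        apply mul_le_mul
        · exact_mod_cast hp2.2.le
        · exact_mod_cast hq2.2.le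
        · exact hqqR.le
        · positivity)
    have hterm : ∀ p ∈ X.filter (fun p => Nat.log 2 p.2 = j),
        (d : ℝ) / (p.2 : ℝ) ≤ (d : ℝ) / 2 ^ j := by
      intro p hp
      apply div_le_div_of_nonneg_left hdR.le h2j
      exact_mod_cast (hY p hp).1
    have hsum := Finset.sum_le_card_nsmul _ _ _ hterm
    rw [nsmul_eq_mul] at hsum
    refine le_trans hsum ?_
    have h5 : ((X.filter (fun p => Nat.log 2 p.2 = j)).card : ℝ) * ((d : ℝ) / 2 ^ j) ≤
        (2 * ε / ((d : ℝ) / 4 ^ (j + 1)) + 1) * ((d : ℝ) / 2 ^ j) :=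
      mul_le_mul_of_nonneg_right hc (by positivity)
    refine le_trans h5 (le_of_eq ?_)
    have e4 : (4 : ℝ) ^ (j + 1) = 4 * (2 ^ j * 2 ^ j) := by
      rw [pow_succ, ← mul_pow]
      norm_num
      ring
    rw [e4]
    field_simp
    ring
  refine le_trans (Finset.sum_le_sum hgroup) ?_
  rw [Finset.sum_add_distrib]
  have hA : ∀ a b : ℕ, ∑ j ∈ Finset.Icc a b, (d : ℝ) / 2 ^ j ≤ 2 * d / 2 ^ a := by
    intro a b
    rcases Nat.lt_or_ge b a with hab | hab
    · rw [Finset.Icc_eq_empty_of_lt hab, Finset.sum_empty]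
      positivity
    · have key : ∀ n : ℕ, ∑ j ∈ Finset.Icc a (a + n), (d : ℝ) / 2 ^ j =
          2 * d / 2 ^ a - d / 2 ^ (a + n) := by
        intro n
        induction n with
        | zero =>
          simp
          ring
        | succ n ih =>
          rw [← Nat.add_assoc, Finset.sum_Icc_succ_top (by omega), ih, pow_succ]
          field_simp
          ring
      obtain ⟨n, rfl⟩ := Nat.exists_eq_add_of_le hab
      rw [key n]
      have : (0 : ℝ) ≤ d / 2 ^ (a + n) := by positivity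
      linarith
  have hB : ∀ a b : ℕ, ∑ j ∈ Finset.Icc a b, 8 * ε * (2 : ℝ) ^ j ≤ 16 * ε * 2 ^ b := by
    intro a b
    have h1 : ∑ j ∈ Finset.Icc a b, 8 * ε * (2 : ℝ) ^ j ≤
        ∑ j ∈ Finset.range (b + 1), 8 * ε * (2 : ℝ) ^ j := by
      apply Finset.sum_le_sum_of_subset_of_nonneg
      · intro j hj
        rw [Finset.mem_Icc] at hj
        rw [Finset.mem_range]
        omega
      · intro j _ _
        positivity
    refine le_trans h1 ?_
    rw [← Finset.mul_sum, geom_sum_eq (by norm_num), pow_succ]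
    have : (0 : ℝ) ≤ 8 * ε := by linarith
    have h2 : ((2 : ℝ) ^ b * 2 - 1) / (2 - 1) ≤ 2 * 2 ^ b := by
      norm_num
      linarith
    calc 8 * ε * (((2 : ℝ) ^ b * 2 - 1) / (2 - 1)) ≤ 8 * ε * (2 * 2 ^ b) :=
          mul_le_mul_of_nonneg_left h2 this
      _ = 16 * ε * 2 ^ b := by ring
  have h1 := hA (Nat.log 2 lo) (Nat.log 2 hi)
  have h2 := hB (Nat.log 2 lo) (Nat.log 2 hi)
  have h3 : 2 * (d : ℝ) / 2 ^ (Nat.log 2 lo) ≤ 4 * d / lo := by
    have hl : lo < 2 ^ (Nat.log 2 lo + 1) := Nat.lt_pow_succ_log_self (by norm_num) _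
    have hlR : (lo : ℝ) < 2 * 2 ^ (Nat.log 2 lo) := by
      have : (lo : ℝ) < 2 ^ (Nat.log 2 lo + 1) := by exact_mod_cast hl
      rw [pow_succ] at this
      linarith
    rw [div_le_div_iff₀ (by positivity) hloR]
    nlinarith
  have h4 : 16 * ε * (2 : ℝ) ^ (Nat.log 2 hi) ≤ 16 * ε * hi := by
    apply mul_le_mul_of_nonneg_left
    · exact_mod_cast Nat.pow_log_le_self 2 hhi.ne'
    · linarith
  linarith

end Pool.Agent.H75H
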