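import Pool.Agent.H75H.Defs

set_option autoImplicit false

/-
Proof sketch (helper75); compare Pool/Agent/H75G/Rel.lean (proved).
g * uu = a (`uu_mul`), g * v = x (`g_mul_v`), so uu c' / v c' = a c' / x c' and
(uu c - 1) / v c = (a c - g c) / x c. With L = sum of g k over Ioo c c' (`sum_g`):
a c' = a c - g c - L and
a c' / x c' - (a c - g c) / x c = - (x c' - x c) * (a c - g c) / (x c * x c') - L / x c'.
(1) L / x c' ≤ 2 T / Q: g k = x k / v k ≤ x k / Q, x k ≤ 2 x c' (x k ≤ k + 7 ≤ c' + 6, x c' ≥ c' + 1,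
c' ≥ n0 ≥ s/2 - 1 ≥ 3), at most T indices.
(2) a c - g c = a (c+1). Put δ = B + 2 T + 8.
|a (c+1) - a nb| = sum of g over Ico nb (c+1) ≤ (B + T) * (2 C s) (g ≤ x ≤ 2 C s: hw.xhigh), and
x c * x c' ≥ (s/2)^2, so the first difference is ≤ 8 C (B + T) / s.
x c * x c' - (nb+1)^2 is between 0 and 2 δ x c' (x c, x c' ≤ nb + 1 + δ, x c' ≥ nb + 1), a nb ≤ N = s^2
(hw.yhigh), (nb+1)^2 ≥ s^2/4, x c ≥ s/2, so |a nb / (x c x c') - kap nb| ≤ 16 δ / s.
Together |a (c+1) / (x c x c') - kap nb| ≤ 24 C δ / s ≤ 1 / Q (hB).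
(3) |x c' - x c| ≤ T + 6 (`x_sub`). Total ≤ 2 T / Q + (T + 6) / Q.
-/

namespace Pool.Agent.H75H

open Pool.Agent.H5.GR

theorem uu_div (N n : ℕ) : (uu N n : ℝ) / (v N n : ℝ) = (a N n : ℝ) / (x n : ℝ) := by
  have h1 : (g N n : ℝ) * (uu N n : ℝ) = (a N n : ℝ) := by exact_mod_cast uu_mul N n
  have h2 := x_real N n
  have hg : (1 : ℝ) ≤ g N n := by exact_mod_cast g_pos N n
  have hv : (1 : ℝ) ≤ v N n := by exact_mod_cast v_pos N n
  have hg0 : (g N n : ℝ) ≠ 0 := by linarith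
  have hv0 : (v N n : ℝ) ≠ 0 := by linarith
  rw [h2, ← h1]
  field_simp

theorem uu_div_one (N n : ℕ) (hn : 1 ≤ n) :
    ((uu N n : ℝ) - 1) / (v N n : ℝ) = (a N (n + 1) : ℝ) / (x n : ℝ) := by
  have h0 : (a N (n + 1) : ℝ) = a N n - g N n := by exact_mod_cast a_succ N n hn
  have h1 : (g N n : ℝ) * (uu N n : ℝ) = (a N n : ℝ) := by exact_mod_cast uu_mul N n
  have h2 := x_real N n
  have hg : (1 : ℝ) ≤ g N n := by exact_mod_cast g_pos N n
  have hv : (1 : ℝ) ≤ v N n := by exact_mod_cast v_pos N n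
  have hg0 : (g N n : ℝ) ≠ 0 := by linarith
  have hv0 : (v N n : ℝ) ≠ 0 := by linarith
  rw [h0, h2, ← h1]
  field_simp

/-- the relation between two successive indices with `v ≤ Q` -/
theorem rel_u (N n0 n1 : ℕ) (s C : ℝ) (hw : Win N n0 n1 s C) (nb B T Q : ℕ) (hnb : n0 ≤ nb)
    (hQ : 1 ≤ Q) (hB : 24 * C * ((B : ℝ) + 2 * T + 8) * Q ≤ s) (c c' : ℕ) (h1 : nb ≤ c)
    (h2 : c < c') (h3 : c' < n1) (h4 : c' ≤ nb + B + T) (h5 : c' ≤ c + T)
    (hl : ∀ l, c < l → l < c' → Q < v N l) :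
    |(uu N c' : ℝ) / (v N c' : ℝ) - ((uu N c : ℝ) - 1) / (v N c : ℝ) +
        ((x c' : ℝ) - x c) * kap N nb| ≤ (3 * (T : ℝ) + 6) / Q := by
  have hs := hw.hs
  have hC := hw.hC
  have hone := hw.one_le
  have hlow := hw.low
  have hn0r : (3 : ℝ) ≤ n0 := by linarith
  have hn0 : 3 ≤ n0 := by exact_mod_cast hn0r
  have hQr : (1 : ℝ) ≤ Q := by exact_mod_cast hQ
  have hQ0 : (0 : ℝ) < Q := by linarith
  have hs0 : (0 : ℝ) < s := by linarith
  have hT0 : (0 : ℝ) ≤ T := by positivity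
  have hB0 : (0 : ℝ) ≤ B := by positivity
  have hc1 : 1 ≤ c := by omega
  rw [uu_div, uu_div_one N c hc1]
  have hX0 : (0 : ℝ) < x c := by exact_mod_cast x_pos c
  have hX'0 : (0 : ℝ) < x c' := by exact_mod_cast x_pos c'
  have hXge : (nb : ℝ) + 1 ≤ x c := by
    have : nb + 1 ≤ x c := by have := x_ge c; omega
    exact_mod_cast this
  have hX'ge : (nb : ℝ) + 1 ≤ x c' := by
    have : nb + 1 ≤ x c' := by have := x_ge c'; omega
    exact_mod_cast this
  have hnbr : (n0 : ℝ) ≤ nb := by exact_mod_cast hnb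
  have hnbs : s / 2 ≤ (nb : ℝ) + 1 := by linarith
  set δ : ℝ := (B : ℝ) + 2 * T + 8 with hδ
  have hδ0 : 0 < δ := by positivity
  have hXle : (x c : ℝ) ≤ nb + 1 + δ := by
    have h6 : x c ≤ nb + 1 + (B + 2 * T + 8) := by have := x_le c; omega
    have h7 : ((x c : ℕ) : ℝ) ≤ ((nb + 1 + (B + 2 * T + 8) : ℕ) : ℝ) := by exact_mod_cast h6
    push_cast at h7
    rw [hδ]; linarith
  have hX'le : (x c' : ℝ) ≤ nb + 1 + δ := by
    have h6 : x c' ≤ nb + 1 + (B + 2 * T + 8) := by have := x_le c'; omega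
    have h7 : ((x c' : ℕ) : ℝ) ≤ ((nb + 1 + (B + 2 * T + 8) : ℕ) : ℝ) := by exact_mod_cast h6
    push_cast at h7
    rw [hδ]; linarith
  -- the sum of the gcds strictly between
  have hL := sum_g N (c + 1) c' (by omega) (by omega)
  have hLr : (∑ k ∈ Finset.Ico (c + 1) c', (g N k : ℝ)) = (a N (c + 1) : ℝ) - a N c' := by
    have : ((∑ k ∈ Finset.Ico (c + 1) c', g N k : ℕ) : ℝ) = (a N (c + 1) : ℝ) - a N c' := by
      exact_mod_cast hL
    rw [← this]; push_cast; rfl
  set L : ℝ := ∑ k ∈ Finset.Ico (c + 1) c', (g N k : ℝ) with hLdef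
  have hL0 : 0 ≤ L := Finset.sum_nonneg (fun k _ => by positivity)
  have hLb : L / x c' ≤ 2 * T / Q := by
    have hcard : ((Finset.Ico (c + 1) c').card : ℝ) ≤ T := by
      rw [Nat.card_Ico]
      have : c' - (c + 1) ≤ T := by omega
      exact_mod_cast this
    have hterm : ∀ k ∈ Finset.Ico (c + 1) c', (g N k : ℝ) ≤ 2 * x c' / Q := by
      intro k hk
      rw [Finset.mem_Ico] at hk
      have hvk : (Q : ℝ) ≤ v N k := by
        have := hl k (by omega) hk.2
        exact_mod_cast this.le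
      have hxk : (x k : ℝ) ≤ 2 * x c' := by
        have h6 : x k ≤ 2 * x c' := by
          have h7 := x_le k
          have h8 := x_ge c'
          omega
        exact_mod_cast h6
      have hg0 : (0 : ℝ) ≤ g N k := by positivity
      rw [le_div_iff₀ hQ0]
      calc (g N k : ℝ) * Q ≤ g N k * v N k := mul_le_mul_of_nonneg_left hvk hg0
        _ = x k := (x_real N k).symm
        _ ≤ 2 * x c' := hxk
    have hLle : L ≤ T * (2 * x c' / Q) := by
      calc L ≤ ∑ _k ∈ Finset.Ico (c + 1) c', (2 * (x c' : ℝ) / Q) := Finset.sum_le_sum hterm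
        _ = (Finset.Ico (c + 1) c').card * (2 * (x c' : ℝ) / Q) := by
            rw [Finset.sum_const, nsmul_eq_mul]
        _ ≤ T * (2 * (x c' : ℝ) / Q) := mul_le_mul_of_nonneg_right hcard (by positivity)
    rw [div_le_iff₀ hX'0]
    calc L ≤ T * (2 * x c' / Q) := hLle
      _ = 2 * T / Q * x c' := by ring
  -- the value of a at the base point
  have ha1 := hw.ylow nb hnb (by omega)
  have ha2 := hw.yhigh nb (by omega)
  have hsN := hw.hsN
  have hN0 : (0 : ℝ) ≤ N := by positivity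
  have hanb0 : 0 ≤ (a N nb : ℝ) := by linarith
  have hanb : (a N nb : ℝ) ≤ s ^ 2 := by rw [hsN]; exact ha2
  have hdiff : |(a N (c + 1) : ℝ) - a N nb| ≤ (B + T) * (2 * (C * s)) := by
    have h6 := sum_g N nb (c + 1) (by omega) (by omega)
    have h7 : (∑ k ∈ Finset.Ico nb (c + 1), (g N k : ℝ)) = (a N nb : ℝ) - a N (c + 1) := by
      have : ((∑ k ∈ Finset.Ico nb (c + 1), g N k : ℕ) : ℝ) = (a N nb : ℝ) - a N (c + 1) := by
        exact_mod_cast h6
      rw [← this]; push_cast; rfl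
    have h8 : (0 : ℝ) ≤ ∑ k ∈ Finset.Ico nb (c + 1), (g N k : ℝ) :=
      Finset.sum_nonneg (fun k _ => by positivity)
    have hcard : ((Finset.Ico nb (c + 1)).card : ℝ) ≤ (B : ℝ) + T := by
      rw [Nat.card_Ico]
      have : c + 1 - nb ≤ B + T := by omega
      exact_mod_cast this
    have h9 : (∑ k ∈ Finset.Ico nb (c + 1), (g N k : ℝ)) ≤ (B + T) * (2 * (C * s)) := by
      calc (∑ k ∈ Finset.Ico nb (c + 1), (g N k : ℝ))
          ≤ ∑ _k ∈ Finset.Ico nb (c + 1), (2 * (C * s)) := by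
            apply Finset.sum_le_sum
            intro k hk
            rw [Finset.mem_Ico] at hk
            have h10 : (g N k : ℝ) ≤ x k := by exact_mod_cast g_le_x N k
            exact h10.trans (hw.xhigh k (by omega))
        _ = (Finset.Ico nb (c + 1)).card * (2 * (C * s)) := by
            rw [Finset.sum_const, nsmul_eq_mul]
        _ ≤ (B + T) * (2 * (C * s)) := mul_le_mul_of_nonneg_right hcard (by positivity)
    rw [abs_sub_comm, ← h7, abs_of_nonneg h8]
    exact h9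
  have hXX : s ^ 2 / 4 ≤ (x c : ℝ) * x c' := by
    have h6 : s / 2 ≤ (x c : ℝ) := by linarith
    have h7 : s / 2 ≤ (x c' : ℝ) := by linarith
    calc s ^ 2 / 4 = (s / 2) * (s / 2) := by ring
      _ ≤ (x c : ℝ) * x c' := mul_le_mul h6 h7 (by positivity) hX0.le
  have hXX0 : 0 < (x c : ℝ) * x c' := by positivity
  have hfirst : |((a N (c + 1) : ℝ) - a N nb) / ((x c : ℝ) * x c')| ≤ 8 * C * (B + T) / s := by
    rw [abs_div, abs_of_pos hXX0, div_le_div_iff₀ hXX0 hs0]
    calc |(a N (c + 1) : ℝ) - a N nb| * s ≤ (B + T) * (2 * (C * s)) * s :=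
          mul_le_mul_of_nonneg_right hdiff hs0.le
      _ = 8 * C * (B + T) * (s ^ 2 / 4) := by ring
      _ ≤ 8 * C * (B + T) * ((x c : ℝ) * x c') :=
          mul_le_mul_of_nonneg_left hXX (by positivity)
  have hM0 : (0 : ℝ) < (nb : ℝ) + 1 := by positivity
  have hsecond : |(a N nb : ℝ) / ((x c : ℝ) * x c') - kap N nb| ≤ 16 * δ / s := by
    unfold kap
    set M : ℝ := (nb : ℝ) + 1 with hM
    have h6 : (a N nb : ℝ) / ((x c : ℝ) * x c') - (a N nb : ℝ) / M ^ 2 =
        -((a N nb : ℝ) * ((x c : ℝ) * x c' - M ^ 2) / ((x c : ℝ) * x c' * M ^ 2)) := by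
      have hM' : M ≠ 0 := hM0.ne'
      field_simp
      ring
    rw [h6, abs_neg]
    have h7 : 0 ≤ (x c : ℝ) * x c' - M ^ 2 := by
      have : M * M ≤ (x c : ℝ) * x c' := mul_le_mul hXge hX'ge hM0.le hX0.le
      nlinarith
    have h8 : (x c : ℝ) * x c' - M ^ 2 ≤ 2 * δ * x c := by
      have h9 : (x c : ℝ) * (x c' - M) ≤ x c * δ :=
        mul_le_mul_of_nonneg_left (by linarith) hX0.le
      have h10 : M * (x c - M) ≤ x c * δ := by
        calc M * ((x c : ℝ) - M) ≤ x c * (x c - M) :=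
              mul_le_mul_of_nonneg_right hXge (by linarith)
          _ ≤ x c * δ := mul_le_mul_of_nonneg_left (by linarith) hX0.le
      nlinarith
    rw [abs_of_nonneg (by positivity)]
    have hM2 : 0 < M ^ 2 := by positivity
    rw [div_le_div_iff₀ (by positivity) hs0]
    have hMs : s ^ 2 / 4 ≤ M ^ 2 := by nlinarith
    have hX's : s / 2 ≤ (x c' : ℝ) := by linarith
    calc (a N nb : ℝ) * ((x c : ℝ) * x c' - M ^ 2) * s
        ≤ s ^ 2 * (2 * δ * x c) * s := by
          apply mul_le_mul_of_nonneg_right _ hs0.le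
          exact mul_le_mul hanb h8 h7 (by positivity)
      _ = 16 * δ * (x c * (s / 2) * (s ^ 2 / 4)) := by ring
      _ ≤ 16 * δ * (x c * x c' * M ^ 2) := by
          apply mul_le_mul_of_nonneg_left _ (by positivity)
          apply mul_le_mul _ hMs (by positivity) (by positivity)
          exact mul_le_mul_of_nonneg_left hX's hX0.le
  have hkey : |(a N (c + 1) : ℝ) / ((x c : ℝ) * x c') - kap N nb| ≤ 1 / Q := by
    have h6 : (a N (c + 1) : ℝ) / ((x c : ℝ) * x c') - kap N nb =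
        ((a N (c + 1) : ℝ) - a N nb) / ((x c : ℝ) * x c') +
        ((a N nb : ℝ) / ((x c : ℝ) * x c') - kap N nb) := by ring
    rw [h6]
    refine (abs_add_le _ _).trans ((add_le_add hfirst hsecond).trans ?_)
    have h7 : 8 * C * (B + T) / s + 16 * δ / s ≤ 24 * C * δ / s := by
      rw [← add_div]
      apply div_le_div_of_nonneg_right _ hs0.le
      have h8 : (B : ℝ) + T ≤ δ := by rw [hδ]; linarith
      have h9 : 8 * C * ((B : ℝ) + T) ≤ 8 * C * δ := mul_le_mul_of_nonneg_left h8 (by positivity)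
      have h10 : δ ≤ C * δ := le_mul_of_one_le_left hδ0.le hC
      linarith
    refine h7.trans ?_
    rw [div_le_div_iff₀ hs0 hQ0, one_mul]
    exact hB
  have hxsub : |(x c' : ℝ) - x c| ≤ T + 6 := by
    have h6 := x_sub c c' h2
    have h7 : (c' : ℝ) ≤ c + T := by exact_mod_cast h5
    linarith
  have hform : (a N c' : ℝ) / x c' - (a N (c + 1) : ℝ) / x c + ((x c' : ℝ) - x c) * kap N nb =
      -(L / x c') - ((x c' : ℝ) - x c) *
        ((a N (c + 1) : ℝ) / ((x c : ℝ) * x c') - kap N nb) := by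
    have h6 : (a N c' : ℝ) = a N (c + 1) - L := by linarith
    rw [h6]
    field_simp
    ring
  rw [hform]
  have h6 : |-(L / x c') - ((x c' : ℝ) - x c) *
        ((a N (c + 1) : ℝ) / ((x c : ℝ) * x c') - kap N nb)| ≤
      L / x c' + |((x c' : ℝ) - x c) *
        ((a N (c + 1) : ℝ) / ((x c : ℝ) * x c') - kap N nb)| := by
    refine (abs_sub _ _).trans ?_
    rw [abs_neg, abs_of_nonneg (by positivity : 0 ≤ L / (x c' : ℝ))]
  refine h6.trans ?_
  have h7 : |((x c' : ℝ) - x c) *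
        ((a N (c + 1) : ℝ) / ((x c : ℝ) * x c') - kap N nb)| ≤ (T + 6) * (1 / Q) := by
    rw [abs_mul]
    exact mul_le_mul hxsub hkey (abs_nonneg _) (by positivity)
  refine (add_le_add hLb h7).trans (le_of_eq ?_)
  field_simp
  ring

end Pool.Agent.H75H
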