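import Pool.Agent.H75G.Dup
import Pool.Agent.H75H.Defs
import Pool.Agent.H75H.Farey
import Pool.Agent.H75H.RelU

set_option autoImplicit false

/-
Proof sketch (helper75): induction on m, generalizing the rest.
m = 0: μ = 0 (if F is nonempty); `card_sep` gives card F ≤ B / ℓ + 1 ≤ 2 B / ℓ.
m + 1: F nonempty, fix i* ∈ F. For i ∈ F let c' be the next index from `chn`, e' = c' - i ≤ T,
w' = v c' ≤ Q, d = gcd w' ℓ ≤ D', d ∣ x (i* + e') (d ∣ ℓ ∣ i - i*, d ∣ w' ∣ x (i + e'),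
`x_shift`). By `rel_u` (c = i + e, c' = i + e', w = v c, uu c = U + w t)
|uu c' / w' - t - z| ≤ ε with ε = (3T+6)/Q, z = z_{e'} = (U-1)/w - (x (i*+e') - x (i*+e)) kap nb,
so u = uu c' - t w' has |u / w' - z| ≤ ε, gcd u w' = 1 (`uu_coprime`), w' ∣ uu c' - u.
Hence F is the union over e' ∈ range (T+1), d ∈ divisors (x (i*+e')) with d ≤ D', (u, w') in the
finite set X_{e',d} of pairs with 1 ≤ w' ≤ Q, gcd w' ℓ = d, |u/w' - z| ≤ ε, gcd u w' = 1, of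
F' = {i ∈ F : e' is the next offset, v (i+e') = w', w' ∣ uu (i+e') - u, chn ... m (i+e') μ'' (i+T)},
μ'' = if P1 ≤ w' ≤ P then μ - 1 else μ. Induction hypothesis for F' with ℓ' = lcm ℓ w', e', w', μ'',
D'' = D' (T+6), u: ℓ' ∣ i' - i (w' ∣ x (i+e'), x (i'+e'), `x_shift`); for j > i + e' with v j ≤ Q:
gcd (v j) ℓ' ∣ gcd (v j) ℓ * gcd (v j) w' and gcd (v j) w' divides |x j - x (i+e')| ≤ T + 6, nonzero by
`v_dup` (x ≥ s/2 and 5 Q^2 < s/2). So card F' ≤ 2B/ℓ' ρ^m / θ^μ'' ≤ (2B/ℓ) (d/w') ρ^m θ^[mid] / θ^μ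
(d / w' = ℓ / ℓ'). For fixed e', d: ∑_X (d/w') θ^[mid] ≤ ∑_X d/w' + θ ∑_{X, mid} d/w' ≤
(4 + 16 ε Q) + θ (4 D / P1 + 16 ε P) by `farey` (lo = d resp. P1). The number of (e', d) is ≤ Tp
(typ i*). 
-/

namespace Pool.Agent.H75H

open Pool.Agent.H5.GR

/-- the sum over one fibre -/
theorem cc_fiber_sum (z ε θ : ℝ) (hε : 0 ≤ ε) (hθ : 0 ≤ θ) (d Q P1 P : ℕ) (hd : 1 ≤ d)
    (hP1 : 1 ≤ P1) (X : Finset (ℤ × ℕ))
    (hX : ∀ p ∈ X, 1 ≤ p.2 ∧ p.2 ≤ Q ∧ d ∣ p.2 ∧ Int.gcd p.1 (p.2 : ℤ) = 1 ∧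
      |(p.1 : ℝ) / (p.2 : ℝ) - z| ≤ ε) :
    ∑ p ∈ X, (d : ℝ) / (p.2 : ℝ) * (if P1 ≤ p.2 ∧ p.2 ≤ P then θ else 1) ≤
      (4 + 16 * ε * Q) + θ * (4 * d / P1 + 16 * ε * P) := by
  classical
  have hd0 : (0 : ℝ) < d := by exact_mod_cast hd
  have h1 : ∑ p ∈ X, (d : ℝ) / (p.2 : ℝ) ≤ 4 + 16 * ε * Q := by
    have h := farey z ε hε d d Q hd hd X (fun p hp => by
      obtain ⟨ha, hb, hc, he, hf⟩ := hX p hp
      exact ⟨Nat.le_of_dvd ha hc, hb, hc, he, hf⟩)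
    have h2 : 4 * (d : ℝ) / d = 4 := by field_simp
    rw [h2] at h
    exact h
  have h2 : ∑ p ∈ X.filter (fun p => P1 ≤ p.2 ∧ p.2 ≤ P), (d : ℝ) / (p.2 : ℝ) ≤
      4 * d / P1 + 16 * ε * P := by
    refine farey z ε hε d P1 P hd hP1 _ (fun p hp => ?_)
    rw [Finset.mem_filter] at hp
    obtain ⟨ha, hb, hc, he, hf⟩ := hX p hp.1
    exact ⟨hp.2.1, hp.2.2, hc, he, hf⟩
  have h3 : ∑ p ∈ X, (d : ℝ) / (p.2 : ℝ) * (if P1 ≤ p.2 ∧ p.2 ≤ P then θ else 1) ≤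
      ∑ p ∈ X, (d : ℝ) / (p.2 : ℝ) +
        ∑ p ∈ X, (if P1 ≤ p.2 ∧ p.2 ≤ P then θ * ((d : ℝ) / (p.2 : ℝ)) else 0) := by
    rw [← Finset.sum_add_distrib]
    refine Finset.sum_le_sum fun p _ => ?_
    have h4 : 0 ≤ (d : ℝ) / (p.2 : ℝ) := by positivity
    split_ifs
    · nlinarith
    · linarith
  refine h3.trans (add_le_add h1 ?_)
  rw [← Finset.sum_filter, ← Finset.mul_sum]
  exact mul_le_mul_of_nonneg_left h2 hθ

theorem cc_x_shift (i i' : ℕ) (hr : (i + 1) % 3 = (i' + 1) % 3) (t : ℕ) :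
    (x (i' + t) : ℤ) - x (i + t) = (i' : ℤ) - i := by
  rcases lt_trichotomy i i' with h | h | h
  · have := x_shift i i' h hr t
    omega
  · subst h
    ring
  · have := x_shift i' i h hr.symm t
    omega

theorem cc_pair {F : Finset ℕ} {l : ℕ}
    (h : ∀ i ∈ F, ∀ i' ∈ F, i < i' → l ∣ i' - i ∧ (i + 1) % 3 = (i' + 1) % 3)
    (i : ℕ) (hi : i ∈ F) (i' : ℕ) (hi' : i' ∈ F) :
    (l : ℤ) ∣ (i' : ℤ) - i ∧ (i + 1) % 3 = (i' + 1) % 3 := by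
  rcases lt_trichotomy i i' with h1 | h1 | h1
  · obtain ⟨h2, h3⟩ := h i hi i' hi' h1
    refine ⟨?_, h3⟩
    have h4 : (i' : ℤ) - i = ((i' - i : ℕ) : ℤ) := by omega
    rw [h4]
    exact_mod_cast h2
  · subst h1
    simp
  · obtain ⟨h2, h3⟩ := h i' hi' i hi h1
    refine ⟨?_, h3.symm⟩
    have h4 : (i' : ℤ) - i = -((i - i' : ℕ) : ℤ) := by omega
    rw [h4, dvd_neg]
    exact_mod_cast h2

theorem cc_gcd_v {N n0 n1 : ℕ} {s C : ℝ} (hw : Win N n0 n1 s C) {Q T i j : ℕ}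
    (hQs : 10 * (Q : ℝ) ^ 2 < s) (hi : n0 ≤ i) (hij : i < j) (hT : j ≤ i + T)
    (h1 : v N i ≤ Q) (h2 : v N j ≤ Q) : Nat.gcd (v N j) (v N i) ≤ T + 6 := by
  have hi1 : 1 ≤ i := hw.one_le.trans hi
  have hne : x i ≠ x j := by
    intro h
    have h3 := Pool.Agent.H75G.v_dup N i j hi1 hij h
    have h4 : v N i * v N j ≤ Q * Q := Nat.mul_le_mul h1 h2
    have h5 : x i ≤ 5 * (Q * Q) := h3.trans (Nat.mul_le_mul_left 5 h4)
    have h6 : (x i : ℝ) ≤ 5 * ((Q : ℝ) * Q) := by exact_mod_cast h5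
    have h7 : (i : ℝ) + 1 ≤ x i := by exact_mod_cast x_ge i
    have h8 : (n0 : ℝ) ≤ i := by exact_mod_cast hi
    have h9 := hw.low
    nlinarith
  have hd1 : ((Nat.gcd (v N j) (v N i) : ℕ) : ℤ) ∣ x j :=
    Int.natCast_dvd_natCast.2 ((Nat.gcd_dvd_left _ _).trans (v_dvd_x N j))
  have hd2 : ((Nat.gcd (v N j) (v N i) : ℕ) : ℤ) ∣ x i :=
    Int.natCast_dvd_natCast.2 ((Nat.gcd_dvd_right _ _).trans (v_dvd_x N i))
  have hd3 := dvd_sub hd1 hd2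
  have hne' : (x j : ℤ) - x i ≠ 0 := by
    intro h
    apply hne
    have : (x i : ℤ) = x j := by linarith
    exact_mod_cast this
  have h3 : ((Nat.gcd (v N j) (v N i) : ℕ) : ℤ) ≤ |(x j : ℤ) - x i| :=
    Int.le_of_dvd (abs_pos.2 hne') ((dvd_abs _ _).2 hd3)
  have h4 : |(x j : ℤ) - x i| ≤ T + 6 := by
    have e1 := x_ge i
    have e2 := x_le i
    have e3 := x_ge j
    have e4 := x_le j
    rw [abs_le]
    constructor <;> omega
  have h5 := h3.trans h4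
  exact_mod_cast h5

/-- the data of the next index of the chain: offset, residue, value of `v` -/
structure CDat (N Q P1 P T m l e mu : ℕ) (z : ℕ → ℝ) (ε : ℝ) (xs : ℕ → ℕ) (i : ℕ)
    (p : ℕ × ℤ × ℕ) : Prop where
  e_lt : e < p.1
  e_le : p.1 ≤ T
  v_eq : v N (i + p.1) = p.2.2
  w_le : p.2.2 ≤ Q
  dvd : (p.2.2 : ℤ) ∣ uu N (i + p.1) - p.2.1
  cop : Int.gcd p.2.1 (p.2.2 : ℤ) = 1
  near : |(p.2.1 : ℝ) / (p.2.2 : ℝ) - z p.1| ≤ ε
  div : Nat.gcd p.2.2 l ∣ xs p.1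
  chain : chn N Q P1 P m (i + p.1) (if P1 ≤ p.2.2 ∧ p.2.2 ≤ P then mu - 1 else mu) (i + T)

theorem cc_exists_dat {N n0 n1 : ℕ} {s C : ℝ} (hw : Win N n0 n1 s C) {nb B T Q : ℕ} (P1 P : ℕ)
    (hnb : n0 ≤ nb) (hQ : 1 ≤ Q) (hB : 24 * C * ((B : ℝ) + 2 * T + 8) * Q ≤ s)
    {m l e w mu : ℕ} {U : ℤ} {i i₀ : ℕ} (hi : nb ≤ i ∧ i < nb + B ∧ i + T < n1)
    (hl : (l : ℤ) ∣ (i : ℤ) - i₀) (hr : (i₀ + 1) % 3 = (i + 1) % 3)
    (hc : chn N Q P1 P (m + 1) (i + e) mu (i + T)) (hv : v N (i + e) = w)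
    (hU : (w : ℤ) ∣ uu N (i + e) - U) :
    ∃ p, CDat N Q P1 P T m l e mu
      (fun o => ((U : ℝ) - 1) / w - ((x (i₀ + o) : ℝ) - x (i₀ + e)) * kap N nb)
      ((3 * (T : ℝ) + 6) / Q) (fun o => x (i₀ + o)) i p := by
  obtain ⟨c', h1, h2, h3, h4, h5⟩ := hc
  obtain ⟨e', rfl⟩ : ∃ e', c' = i + e' := ⟨c' - i, by omega⟩
  obtain ⟨t, ht⟩ := hU
  have hw0 : 0 < w := by rw [← hv]; exact v_pos N _
  have hw' : 0 < v N (i + e') := v_pos N _
  have hwR : (0 : ℝ) < w := by exact_mod_cast hw0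
  have hwR' : (0 : ℝ) < v N (i + e') := by exact_mod_cast hw'
  refine ⟨(e', uu N (i + e') - t * v N (i + e'), v N (i + e')), ?_⟩
  refine ⟨by simp only; omega, by simp only; omega, rfl, h3, ?_, ?_, ?_, ?_, h5⟩
  · simp only
    exact ⟨t, by ring⟩
  · simp only
    have h6 : IsCoprime (uu N (i + e')) (v N (i + e') : ℤ) :=
      Int.isCoprime_iff_gcd_eq_one.2 (uu_coprime N _)
    have h7 := h6.add_mul_left_left (-t)
    rw [← Int.isCoprime_iff_gcd_eq_one]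
    have h8 : uu N (i + e') - t * (v N (i + e') : ℤ) =
        uu N (i + e') + (v N (i + e') : ℤ) * -t := by ring
    rw [h8]
    exact h7
  · simp only
    have h6 := rel_u N n0 n1 s C hw nb B T Q hnb hQ hB (i + e) (i + e') (by omega) (by omega)
      (by omega) (by omega) (by omega) h4
    have h7 : (uu N (i + e) : ℝ) = U + w * t := by
      have : uu N (i + e) = U + w * t := by linarith
      exact_mod_cast this
    have h8 : (x (i + e') : ℝ) - x (i + e) = (x (i₀ + e') : ℝ) - x (i₀ + e) := by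
      have e1 := cc_x_shift i₀ i hr e'
      have e2 := cc_x_shift i₀ i hr e
      have e3 : (x (i + e') : ℤ) - x (i + e) = (x (i₀ + e') : ℤ) - x (i₀ + e) := by linarith
      exact_mod_cast e3
    rw [hv, h7, h8] at h6
    have h9 : ((uu N (i + e') - t * v N (i + e') : ℤ) : ℝ) / (v N (i + e') : ℝ) -
        (((U : ℝ) - 1) / w - ((x (i₀ + e') : ℝ) - x (i₀ + e)) * kap N nb) =
        (uu N (i + e') : ℝ) / (v N (i + e') : ℝ) - ((U : ℝ) + w * t - 1) / w +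
        ((x (i₀ + e') : ℝ) - x (i₀ + e)) * kap N nb := by
      push_cast
      field_simp
      ring
    rw [h9]
    exact h6
  · simp only
    have h6 : ((Nat.gcd (v N (i + e')) l : ℕ) : ℤ) ∣ x (i + e') :=
      Int.natCast_dvd_natCast.2 ((Nat.gcd_dvd_left _ _).trans (v_dvd_x N _))
    have h7 : ((Nat.gcd (v N (i + e')) l : ℕ) : ℤ) ∣ (i : ℤ) - i₀ :=
      (Int.natCast_dvd_natCast.2 (Nat.gcd_dvd_right _ _)).trans hl
    rw [← cc_x_shift i₀ i hr e'] at h7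
    have h8 := dvd_sub h6 h7
    have h9 : (x (i + e') : ℤ) - ((x (i + e') : ℤ) - x (i₀ + e')) = x (i₀ + e') := by ring
    rw [h9] at h8
    exact_mod_cast h8


/-- one fibre of the map to the data -/
theorem cc_fibre (N n0 n1 : ℕ) (s C : ℝ) (hw : Win N n0 n1 s C) (nb B T Q P1 P Tp D : ℕ)
    (θ ρ : ℝ) (hnb : n0 ≤ nb) (hQs : 10 * (Q : ℝ) ^ 2 < s) (hθ : 1 ≤ θ) (hρ0 : 0 ≤ ρ) (m : ℕ)
    (ih : ∀ (F : Finset ℕ) (l e w μ D' : ℕ) (U : ℤ), 1 ≤ l → D' * (T + 6) ^ m ≤ D →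
      l * Q ^ m ≤ B → w ≤ Q →
      (∀ i ∈ F, nb ≤ i ∧ i < nb + B ∧ i + T < n1) →
      (∀ i ∈ F, ∀ i' ∈ F, i < i' → l ∣ i' - i ∧ (i + 1) % 3 = (i' + 1) % 3) →
      (∀ i ∈ F, typ T Tp i) → (∀ i ∈ F, chn N Q P1 P m (i + e) μ (i + T)) →
      (∀ i ∈ F, v N (i + e) = w ∧ (w : ℤ) ∣ uu N (i + e) - U) →
      (∀ i ∈ F, ∀ j, i + e < j → j ≤ i + T → v N j ≤ Q → Nat.gcd (v N j) l ≤ D') →
      (F.card : ℝ) ≤ 2 * B / l * ρ ^ m / θ ^ μ)
    (F : Finset ℕ) (l e μ D' : ℕ) (hl : 1 ≤ l) (hD : D' * (T + 6) ^ (m + 1) ≤ D)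
    (hlB : l * Q ^ (m + 1) ≤ B)
    (hpos : ∀ i ∈ F, nb ≤ i ∧ i < nb + B ∧ i + T < n1)
    (hdiv : ∀ i ∈ F, ∀ i' ∈ F, i < i' → l ∣ i' - i ∧ (i + 1) % 3 = (i' + 1) % 3)
    (htyp : ∀ i ∈ F, typ T Tp i)
    (hgcd : ∀ i ∈ F, ∀ j, i + e < j → j ≤ i + T → v N j ≤ Q → Nat.gcd (v N j) l ≤ D')
    (z : ℕ → ℝ) (ε : ℝ) (xs : ℕ → ℕ) (p : ℕ × ℤ × ℕ) (i₁ : ℕ) (hi₁ : i₁ ∈ F)
    (hF : ∀ i ∈ F, CDat N Q P1 P T m l e μ z ε xs i p) :
    (F.card : ℝ) ≤ 2 * B / l * ρ ^ m / θ ^ μ * (((Nat.gcd p.2.2 l : ℕ) : ℝ) / (p.2.2 : ℝ) *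
      (if P1 ≤ p.2.2 ∧ p.2.2 ≤ P then θ else 1)) := by
  have hθ0 : 0 < θ := by linarith
  have hp := hF i₁ hi₁
  have hw0 : 0 < p.2.2 := by rw [← hp.v_eq]; exact v_pos N _
  have hwQ : p.2.2 ≤ Q := hp.w_le
  have hlcm0 : 0 < Nat.lcm l p.2.2 := Nat.lcm_pos hl hw0
  have hlcmle : Nat.lcm l p.2.2 ≤ l * p.2.2 :=
    Nat.le_of_dvd (Nat.mul_pos hl hw0) (Nat.lcm_dvd_mul l p.2.2)
  have key := ih F (Nat.lcm l p.2.2) p.1 p.2.2
    (if P1 ≤ p.2.2 ∧ p.2.2 ≤ P then μ - 1 else μ) (D' * (T + 6)) p.2.1 hlcm0 ?_ ?_ hwQ hpos ?_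
    htyp (fun i hi => (hF i hi).chain) (fun i hi => ⟨(hF i hi).v_eq, (hF i hi).dvd⟩) ?_
  · refine key.trans ?_
    have hg0 : 0 < Nat.gcd p.2.2 l := Nat.gcd_pos_of_pos_left _ hw0
    have hmul : ((Nat.gcd p.2.2 l : ℕ) : ℝ) * (Nat.lcm l p.2.2 : ℕ) = (l : ℝ) * p.2.2 := by
      have := Nat.gcd_mul_lcm l p.2.2
      rw [Nat.gcd_comm] at this
      exact_mod_cast this
    have hlR : (0 : ℝ) < l := by exact_mod_cast hl
    have hwR : (0 : ℝ) < p.2.2 := by exact_mod_cast hw0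
    have hgR : (0 : ℝ) < ((Nat.gcd p.2.2 l : ℕ) : ℝ) := by exact_mod_cast hg0
    have hlcmR : (0 : ℝ) < ((Nat.lcm l p.2.2 : ℕ) : ℝ) := by exact_mod_cast hlcm0
    have e1 : 2 * (B : ℝ) / ((Nat.lcm l p.2.2 : ℕ) : ℝ) =
        2 * B / l * (((Nat.gcd p.2.2 l : ℕ) : ℝ) / p.2.2) := by
      rw [div_mul_div_comm, ← hmul]
      field_simp
    have e2 : (θ ^ (if P1 ≤ p.2.2 ∧ p.2.2 ≤ P then μ - 1 else μ))⁻¹ ≤
        (θ ^ μ)⁻¹ * (if P1 ≤ p.2.2 ∧ p.2.2 ≤ P then θ else 1) := by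
      split_ifs with hmid
      · rcases μ with _ | k
        · simpa using hθ
        · rw [Nat.add_sub_cancel, pow_succ]
          refine le_of_eq ?_
          field_simp
      · rw [mul_one]
    rw [e1]
    have hA : 0 ≤ 2 * (B : ℝ) / l * ρ ^ m * (((Nat.gcd p.2.2 l : ℕ) : ℝ) / p.2.2) := by
      positivity
    calc 2 * (B : ℝ) / l * (((Nat.gcd p.2.2 l : ℕ) : ℝ) / p.2.2) * ρ ^ m /
          θ ^ (if P1 ≤ p.2.2 ∧ p.2.2 ≤ P then μ - 1 else μ) =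
        2 * (B : ℝ) / l * ρ ^ m * (((Nat.gcd p.2.2 l : ℕ) : ℝ) / p.2.2) *
          (θ ^ (if P1 ≤ p.2.2 ∧ p.2.2 ≤ P then μ - 1 else μ))⁻¹ := by
          rw [div_eq_mul_inv _ (θ ^ _)]
          ring
      _ ≤ 2 * (B : ℝ) / l * ρ ^ m * (((Nat.gcd p.2.2 l : ℕ) : ℝ) / p.2.2) *
          ((θ ^ μ)⁻¹ * (if P1 ≤ p.2.2 ∧ p.2.2 ≤ P then θ else 1)) :=
          mul_le_mul_of_nonneg_left e2 hA
      _ = _ := by
          rw [div_eq_mul_inv _ (θ ^ μ)]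
          ring
  · refine le_trans (le_of_eq ?_) hD
    ring
  · calc Nat.lcm l p.2.2 * Q ^ m ≤ l * Q * Q ^ m :=
          Nat.mul_le_mul_right _ (hlcmle.trans (Nat.mul_le_mul_left _ hwQ))
      _ = l * Q ^ (m + 1) := by ring
      _ ≤ B := hlB
  · intro i hi i' hi' hlt
    obtain ⟨h1, h2⟩ := hdiv i hi i' hi' hlt
    refine ⟨Nat.lcm_dvd h1 ?_, h2⟩
    have h3 : p.2.2 ∣ x (i + p.1) := by rw [← (hF i hi).v_eq]; exact v_dvd_x N _
    have h4 : p.2.2 ∣ x (i' + p.1) := by rw [← (hF i' hi').v_eq]; exact v_dvd_x N _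
    rw [x_shift i i' hlt h2 p.1] at h4
    exact (Nat.dvd_add_right h3).1 h4
  · intro i hi j hj1 hj2 hj3
    have h1 := (hF i hi).e_lt
    have h2 := hgcd i hi j (by omega) hj2 hj3
    have h3 : Nat.gcd (v N j) p.2.2 ≤ T + 6 := by
      have h4 := cc_gcd_v hw (Q := Q) (T := T) (i := i + p.1) (j := j) hQs
        (by have := (hpos i hi).1; omega) hj1 (by omega)
        (by rw [(hF i hi).v_eq]; exact hwQ) hj3
      rw [(hF i hi).v_eq] at h4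
      exact h4
    have h5 : Nat.gcd (v N j) (Nat.lcm l p.2.2) ∣ Nat.gcd (v N j) l * Nat.gcd (v N j) p.2.2 :=
      (Nat.gcd_dvd_gcd_of_dvd_right _ (Nat.lcm_dvd_mul l p.2.2)).trans
        (Nat.gcd_mul_right_dvd_mul_gcd _ _ _)
    have h6 : 0 < Nat.gcd (v N j) l * Nat.gcd (v N j) p.2.2 :=
      Nat.mul_pos (Nat.gcd_pos_of_pos_left _ (v_pos N j)) (Nat.gcd_pos_of_pos_left _ (v_pos N j))
    exact (Nat.le_of_dvd h6 h5).trans (Nat.mul_le_mul h2 h3)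


/-- indices of a block with the same data followed by a chain -/
theorem chain_count (N n0 n1 : ℕ) (s C : ℝ) (hw : Win N n0 n1 s C) (nb B T Q P1 P Tp D : ℕ)
    (θ ρ : ℝ) (hnb : n0 ≤ nb) (hQ : 1 ≤ Q) (hQs : 10 * (Q : ℝ) ^ 2 < s)
    (hB : 24 * C * ((B : ℝ) + 2 * T + 8) * Q ≤ s) (hP1 : 1 ≤ P1) (hθ : 1 ≤ θ)
    (hρ : (Tp : ℝ) * (48 * (T : ℝ) + 100 + θ * (4 * (D : ℝ) / P1 + (48 * (T : ℝ) + 96) * P / Q)) ≤ ρ) :
    ∀ (m : ℕ) (F : Finset ℕ) (ℓ e w μ D' : ℕ) (U : ℤ), 1 ≤ ℓ → D' * (T + 6) ^ m ≤ D →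
      ℓ * Q ^ m ≤ B → w ≤ Q →
      (∀ i ∈ F, nb ≤ i ∧ i < nb + B ∧ i + T < n1) →
      (∀ i ∈ F, ∀ i' ∈ F, i < i' → ℓ ∣ i' - i ∧ (i + 1) % 3 = (i' + 1) % 3) →
      (∀ i ∈ F, typ T Tp i) → (∀ i ∈ F, chn N Q P1 P m (i + e) μ (i + T)) →
      (∀ i ∈ F, v N (i + e) = w ∧ (w : ℤ) ∣ uu N (i + e) - U) →
      (∀ i ∈ F, ∀ j, i + e < j → j ≤ i + T → v N j ≤ Q → Nat.gcd (v N j) ℓ ≤ D') →
      (F.card : ℝ) ≤ 2 * B / ℓ * ρ ^ m / θ ^ μ := by
  classical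
  have hθ0 : 0 < θ := by linarith
  have hρ0 : 0 ≤ ρ := le_trans (by positivity) hρ
  intro m
  induction m with
  | zero =>
    intro F ℓ e w μ D' U hℓ hD hlB hwQ hpos hdiv htyp hchn hv hgcd
    rcases F.eq_empty_or_nonempty with rfl | ⟨i, hi⟩
    · simp only [Finset.card_empty, Nat.cast_zero]
      positivity
    · have hμ : μ = 0 := hchn i hi
      subst hμ
      have hcard := card_sep F ℓ hℓ (B : ℝ) (by positivity) (fun i hi i' hi' hlt =>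
        ⟨(hdiv i hi i' hi' hlt).1, by
          have h1 := (hpos i hi).1
          have h2 := (hpos i' hi').2.1
          have h3 : i' ≤ B + i := by omega
          have h4 : (i' : ℝ) ≤ B + i := by exact_mod_cast h3
          linarith⟩)
      have hlR : (0 : ℝ) < ℓ := by exact_mod_cast hℓ
      have h1 : (ℓ : ℝ) ≤ B := by
        have : ℓ ≤ B := by simpa using hlB
        exact_mod_cast this
      have h2 : 1 ≤ (B : ℝ) / ℓ := (one_le_div hlR).2 h1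
      have h3 : 2 * (B : ℝ) / ℓ * ρ ^ 0 / θ ^ 0 = B / ℓ + B / ℓ := by
        rw [pow_zero, pow_zero]
        ring
      rw [h3]
      linarith
  | succ m ih =>
    intro F ℓ e w μ D' U hℓ hD hlB hwQ hpos hdiv htyp hchn hv hgcd
    rcases F.eq_empty_or_nonempty with rfl | ⟨i₀, hi₀⟩
    · simp only [Finset.card_empty, Nat.cast_zero]
      positivity
    obtain ⟨z, hz⟩ : ∃ z : ℕ → ℝ, z = fun o => ((U : ℝ) - 1) / w -
        ((x (i₀ + o) : ℝ) - x (i₀ + e)) * kap N nb := ⟨_, rfl⟩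
    obtain ⟨ε, hε⟩ : ∃ ε : ℝ, ε = (3 * (T : ℝ) + 6) / Q := ⟨_, rfl⟩
    have hQR : (0 : ℝ) < Q := by exact_mod_cast hQ
    have hε0 : 0 ≤ ε := by rw [hε]; positivity
    have hdat : ∀ i ∈ F, ∃ p, CDat N Q P1 P T m ℓ e μ z ε (fun o => x (i₀ + o)) i p := by
      intro i hi
      rw [hz, hε]
      exact cc_exists_dat hw P1 P hnb hQ hB (hpos i hi) (cc_pair hdiv i₀ hi₀ i hi).1
        (cc_pair hdiv i₀ hi₀ i hi).2 (hchn i hi) (hv i hi).1 (hv i hi).2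
    choose! φ hφ using hdat
    obtain ⟨K, hK⟩ : ∃ K : ℝ, K = 2 * B / ℓ * ρ ^ m / θ ^ μ := ⟨_, rfl⟩
    have hK0 : 0 ≤ K := by rw [hK]; positivity
    obtain ⟨ff, hff⟩ : ∃ ff : ℕ × ℤ × ℕ → ℝ, ff = fun p => ((Nat.gcd p.2.2 ℓ : ℕ) : ℝ) /
        (p.2.2 : ℝ) * (if P1 ≤ p.2.2 ∧ p.2.2 ≤ P then θ else 1) := ⟨_, rfl⟩
    have hfib : ∀ p ∈ F.image φ, ((F.filter (fun i => φ i = p)).card : ℝ) ≤ K * ff p := by
      intro p hp
      obtain ⟨i₁, hi₁, hip⟩ := Finset.mem_image.1 hp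
      have hsub : ∀ i ∈ F.filter (fun i => φ i = p), i ∈ F := fun i hi =>
        (Finset.mem_filter.1 hi).1
      have h1 := cc_fibre N n0 n1 s C hw nb B T Q P1 P Tp D θ ρ hnb hQs hθ hρ0 m ih
        (F.filter (fun i => φ i = p)) ℓ e μ D' hℓ hD hlB
        (fun i hi => hpos i (hsub i hi))
        (fun i hi i' hi' => hdiv i (hsub i hi) i' (hsub i' hi'))
        (fun i hi => htyp i (hsub i hi)) (fun i hi => hgcd i (hsub i hi))
        z ε (fun o => x (i₀ + o)) p i₁ (Finset.mem_filter.2 ⟨hi₁, hip⟩)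
        (fun i hi => by
          have h2 := hφ i (hsub i hi)
          rwa [(Finset.mem_filter.1 hi).2] at h2)
      rw [hK, hff]
      exact h1
    have hcard : (F.card : ℝ) ≤ ∑ p ∈ F.image φ, K * ff p := by
      rw [Finset.card_eq_sum_card_image φ F]
      push_cast
      exact Finset.sum_le_sum hfib
    obtain ⟨gg, hgg⟩ : ∃ gg : ℕ × ℤ × ℕ → (Σ _ : ℕ, ℕ), gg = fun p =>
        ⟨p.1, Nat.gcd p.2.2 ℓ⟩ := ⟨_, rfl⟩
    obtain ⟨tt, htt⟩ : ∃ tt : Finset (Σ _ : ℕ, ℕ), tt = (Finset.range (T + 1)).sigma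
        (fun o => Nat.divisors (x (i₀ + o))) := ⟨_, rfl⟩
    have httc : (tt.card : ℝ) ≤ Tp := by
      rw [htt, Finset.card_sigma]
      exact_mod_cast htyp i₀ hi₀
    have hmaps : ∀ p ∈ F.image φ, gg p ∈ tt := by
      intro p hp
      obtain ⟨i₁, hi₁, hip⟩ := Finset.mem_image.1 hp
      have h1 := hφ i₁ hi₁
      rw [hip] at h1
      rw [hgg, htt, Finset.mem_sigma, Finset.mem_range, Nat.mem_divisors]
      exact ⟨Nat.lt_succ_of_le h1.e_le, h1.div, (x_pos _).ne'⟩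
    obtain ⟨W, hW⟩ : ∃ W : ℝ, W = 48 * (T : ℝ) + 100 +
        θ * (4 * (D : ℝ) / P1 + (48 * (T : ℝ) + 96) * P / Q) := ⟨_, rfl⟩
    have hP1R : (0 : ℝ) < P1 := by exact_mod_cast hP1
    have hW0 : 0 ≤ W := by rw [hW]; positivity
    have hgroup : ∀ y ∈ tt, ∑ p ∈ (F.image φ).filter (fun p => gg p = y), ff p ≤ W := by
      intro y hy
      rcases ((F.image φ).filter (fun p => gg p = y)).eq_empty_or_nonempty with h0 | ⟨p₀, hp₀⟩
      · rw [h0, Finset.sum_empty]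
        exact hW0
      obtain ⟨o, d⟩ := y
      rw [Finset.mem_filter] at hp₀
      obtain ⟨i₁, hi₁, hip⟩ := Finset.mem_image.1 hp₀.1
      have hall : ∀ p ∈ (F.image φ).filter (fun p => gg p = ⟨o, d⟩),
          p.1 = o ∧ Nat.gcd p.2.2 ℓ = d ∧ ∃ i ∈ F, CDat N Q P1 P T m ℓ e μ z ε
            (fun o => x (i₀ + o)) i p := by
        intro p hp
        rw [Finset.mem_filter] at hp
        obtain ⟨i, hi, hip⟩ := Finset.mem_image.1 hp.1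
        have h1 := hφ i hi
        rw [hip] at h1
        have h2 := hp.2
        rw [hgg] at h2
        simp only [Sigma.mk.injEq, heq_eq_eq] at h2
        exact ⟨h2.1, h2.2, i, hi, h1⟩
      have hd : 1 ≤ d ∧ d ≤ D' := by
        obtain ⟨h1, h2, i, hi, h3⟩ := hall p₀ (Finset.mem_filter.2 hp₀)
        have h4 : 0 < p₀.2.2 := by rw [← h3.v_eq]; exact v_pos N _
        refine ⟨by rw [← h2]; exact Nat.gcd_pos_of_pos_left _ h4, ?_⟩
        rw [← h2, ← h3.v_eq]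
        refine hgcd i hi (i + p₀.1) (by have := h3.e_lt; omega) (by have := h3.e_le; omega) ?_
        rw [h3.v_eq]
        exact h3.w_le
      have hinj : ∀ p ∈ (F.image φ).filter (fun p => gg p = ⟨o, d⟩),
          ∀ p' ∈ (F.image φ).filter (fun p => gg p = ⟨o, d⟩), p.2 = p'.2 → p = p' := by
        intro p hp p' hp' h
        exact Prod.ext ((hall p hp).1.trans (hall p' hp').1.symm) h
      have hsum : ∑ p ∈ (F.image φ).filter (fun p => gg p = ⟨o, d⟩), ff p =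
          ∑ q ∈ ((F.image φ).filter (fun p => gg p = ⟨o, d⟩)).image (fun p => p.2),
            (d : ℝ) / (q.2 : ℝ) * (if P1 ≤ q.2 ∧ q.2 ≤ P then θ else 1) := by
        rw [Finset.sum_image hinj]
        refine Finset.sum_congr rfl fun p hp => ?_
        rw [hff]
        simp only
        rw [(hall p hp).2.1]
      rw [hsum]
      have h1 := cc_fiber_sum (z o) ε θ hε0 hθ0.le d Q P1 P hd.1 hP1
        (((F.image φ).filter (fun p => gg p = ⟨o, d⟩)).image (fun p => p.2)) (fun q hq => by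
          obtain ⟨p, hp, rfl⟩ := Finset.mem_image.1 hq
          obtain ⟨h1, h2, i, hi, h3⟩ := hall p hp
          have h4 : 0 < p.2.2 := by rw [← h3.v_eq]; exact v_pos N _
          refine ⟨h4, h3.w_le, ?_, h3.cop, ?_⟩
          · rw [← h2]
            exact Nat.gcd_dvd_left _ _
          · rw [← h1]
            exact h3.near)
      refine h1.trans ?_
      have hdD : (d : ℝ) ≤ D := by
        have h2 : D' ≤ D := le_trans (Nat.le_mul_of_pos_right D' (by positivity)) hD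
        exact_mod_cast hd.2.trans h2
      have e1 : 4 + 16 * ε * Q = 48 * (T : ℝ) + 100 := by
        rw [hε]
        field_simp
        ring
      have e2 : 16 * ε * P = (48 * (T : ℝ) + 96) * P / Q := by
        rw [hε]
        field_simp
        ring
      rw [hW, e1, e2]
      gcongr
    have hsumI : ∑ p ∈ F.image φ, ff p ≤ Tp * W := by
      rw [← Finset.sum_fiberwise_of_maps_to hmaps ff]
      calc ∑ y ∈ tt, ∑ p ∈ (F.image φ).filter (fun p => gg p = y), ff p ≤ ∑ _y ∈ tt, W :=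
            Finset.sum_le_sum hgroup
        _ = tt.card * W := by rw [Finset.sum_const, nsmul_eq_mul]
        _ ≤ Tp * W := mul_le_mul_of_nonneg_right httc hW0
    rw [← Finset.mul_sum] at hcard
    have hfin : K * ρ = 2 * B / ℓ * ρ ^ (m + 1) / θ ^ μ := by
      rw [hK, pow_succ]
      ring
    rw [← hfin]
    refine hcard.trans (mul_le_mul_of_nonneg_left (hsumI.trans ?_) hK0)
    rw [hW]
    exact hρ

end Pool.Agent.H75H
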