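import Pool.Agent.H75H.Defs

set_option autoImplicit false

/-
Proof sketch (helper75). n = card S', M = 8 (μ + 1); if n < M the left side is negative. Let
e : Fin n → ℕ (or ℕ → ℕ on t < n) be the increasing enumeration of S' (`Finset.orderEmbOfFin`).
For t < n - M let c(t) = number of k ∈ [1, M] with e (t+k) ∈ S. For each k the number of t < n - M with
e (t+k) ∈ S is ≥ card S - M, so ∑_t c(t) ≥ M (card S - M) ≥ M (n/2 - M), and c(t) ≤ M, so
M #{t : c(t) ≥ M/4} + (M/4) n ≥ M (n/2 - M): #{t : 4 c(t) ≥ M} ≥ n/4 - M.
∑_{t < n-M} (e (t+M) - e t) ≤ M n1 (telescoping), so #{t : e (t+M) > e t + T} ≤ M n1 / T.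
#{t : some e (t+k) ∈ Bad, 0 ≤ k ≤ M} ≤ (M + 1) card Bad.
Every other t with 4 c(t) ≥ M is good: among e (t+1), ..., e (t+M) there are ≥ 2 (μ + 1) elements of S,
all within e t + T, and two successive ones (no element of S between) are not both outside D (else
the first is in Bad), so at least every second one is in D (2 * #D + 1 ≥ #S; by induction with the
stronger claim #S ≤ 2 #D unless the last element of S so far is outside D), hence ≥ μ of them in D, and
`chC S' D M (e t) μ (e t + T)` follows by induction on the number of steps.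
-/

namespace Pool.Agent.H75H

section aux73

variable {S' S D Bad : Finset ℕ} {n : ℕ} {e : ℕ → ℕ}

/-- an increasing enumeration of a finite set -/
private theorem en73_exists (A : Finset ℕ) : ∃ e : ℕ → ℕ, (∀ t < A.card, e t ∈ A) ∧
    (∀ s t, s < t → t < A.card → e s < e t) ∧ ∀ x ∈ A, ∃ t < A.card, e t = x := by
  refine ⟨fun t => if h : t < A.card then A.orderEmbOfFin rfl ⟨t, h⟩ else 0, ?_, ?_, ?_⟩
  · intro t ht
    beta_reduce
    rw [dif_pos ht]
    exact Finset.orderEmbOfFin_mem A rfl _
  · intro s t hst ht
    beta_reduce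
    rw [dif_pos ht, dif_pos (hst.trans ht)]
    exact (A.orderEmbOfFin rfl).strictMono (by simpa using hst)
  · intro x hx
    have : x ∈ Set.range (A.orderEmbOfFin rfl) := by
      rw [Finset.range_orderEmbOfFin]
      exact hx
    obtain ⟨⟨t, ht⟩, hh⟩ := this
    exact ⟨t, ht, by beta_reduce; rw [dif_pos ht, hh]⟩

open Classical in
/-- the number of `k ∈ [1, m]` with `e (t + k) ∈ A` -/
private noncomputable def ct73 (e : ℕ → ℕ) (A : Finset ℕ) (t m : ℕ) : ℕ :=
  ∑ k ∈ Finset.range m, if e (t + (k + 1)) ∈ A then 1 else 0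

private theorem ct73_zero (A : Finset ℕ) (t : ℕ) : ct73 e A t 0 = 0 := by
  simp [ct73]

private theorem ct73_succ (A : Finset ℕ) (t m : ℕ) :
    ct73 e A t (m + 1) = ct73 e A t m + if e (t + (m + 1)) ∈ A then 1 else 0 := by
  unfold ct73
  rw [Finset.sum_range_succ]

private theorem ct73_succ' (A : Finset ℕ) (t m : ℕ) :
    ct73 e A t (m + 1) = (if e (t + 1) ∈ A then 1 else 0) + ct73 e A (t + 1) m := by
  unfold ct73
  rw [Finset.sum_range_succ', add_comm]
  congr 1
  refine Finset.sum_congr rfl fun k _ => ?_
  rw [show t + (k + 1 + 1) = t + 1 + (k + 1) by ring]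

private theorem ct73_le (A : Finset ℕ) (t m : ℕ) : ct73 e A t m ≤ m := by
  unfold ct73
  calc _ ≤ ∑ k ∈ Finset.range m, 1 := Finset.sum_le_sum fun k _ => by split_ifs <;> simp
    _ = m := by simp

/-- the chain -/
private theorem chain73 (he1 : ∀ t < S'.card, e t ∈ S')
    (he2 : ∀ s t, s < t → t < S'.card → e s < e t) (he3 : ∀ x ∈ S', ∃ t < S'.card, e t = x)
    (R : ℕ) : ∀ (m t μ : ℕ), t + m < S'.card → (m ≠ 0 → e (t + m) ≤ R) → μ ≤ ct73 e D t m →
      chC S' D m (e t) μ R := by
  intro m
  induction m with
  | zero =>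
    intro t μ _ _ h
    rw [ct73_zero] at h
    simpa [chC] using h
  | succ m ih =>
    intro t μ ht hR h
    have hR' := hR (by omega)
    refine ⟨e (t + 1), he1 _ (by omega), he2 _ _ (by omega) (by omega), ?_, ?_, ?_⟩
    · rcases Nat.eq_zero_or_pos m with hm | hm
      · subst hm
        simpa using hR'
      · exact (he2 (t + 1) (t + (m + 1)) (by omega) (by omega)).le.trans hR'
    · rintro l hl ⟨h1, h2⟩
      obtain ⟨s, hs, rfl⟩ := he3 l hl
      have hs1 : t < s := by
        by_contra hc
        rcases Nat.lt_or_ge s t with hlt | hge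
        · exact absurd (he2 s t hlt (by omega)) (by omega)
        · have : s = t := by omega
          subst this
          omega
      have hs2 : s < t + 1 := by
        by_contra hc
        rcases Nat.lt_or_ge (t + 1) s with hlt | hge
        · exact absurd (he2 (t + 1) s hlt hs) (by omega)
        · have : s = t + 1 := by omega
          subst this
          omega
      omega
    · refine ih (t + 1) _ (by omega) (fun _ => ?_) ?_
      · rw [show t + 1 + m = t + (m + 1) by ring]
        exact hR'
      · rw [ct73_succ'] at h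
        split_ifs at h ⊢ <;> omega

/-- at least every second element of `S` is in `D` -/
private theorem half73 (he2 : ∀ s t, s < t → t < S'.card → e s < e t)
    (he3 : ∀ x ∈ S', ∃ t < S'.card, e t = x) (hSS : S ⊆ S') (hDS : D ⊆ S) (T t M : ℕ)
    (hBad : ∀ a ∈ S, ∀ b ∈ S, a < b → b ≤ a + T → (∀ k ∈ S, ¬ (a < k ∧ k < b)) →
      a ∉ D → b ∉ D → a ∈ Bad)
    (htM : t + M < S'.card) (hT : e (t + M) ≤ e t + T) (hnb : ∀ k ≤ M, e (t + k) ∉ Bad) :
    ∀ j ≤ M, ct73 e S t j ≤ 2 * ct73 e D t j ∨ (ct73 e S t j ≤ 2 * ct73 e D t j + 1 ∧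
      ∃ k, 1 ≤ k ∧ k ≤ j ∧ e (t + k) ∈ S ∧ e (t + k) ∉ D ∧
        ∀ l, k < l → l ≤ j → e (t + l) ∉ S) := by
  intro j
  induction j with
  | zero =>
    intro _
    left
    rw [ct73_zero]
    omega
  | succ j ih =>
    intro hj
    have ih' := ih (by omega)
    rw [ct73_succ, ct73_succ]
    by_cases hS : e (t + (j + 1)) ∈ S
    · by_cases hD : e (t + (j + 1)) ∈ D
      · left
        rw [if_pos hS, if_pos hD]
        rcases ih' with h | ⟨h, -⟩ <;> omega
      · rw [if_pos hS, if_neg hD]
        rcases ih' with h | ⟨h, k, hk1, hk2, hkS, hkD, hl⟩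
        · right
          refine ⟨by omega, j + 1, by omega, le_refl _, hS, hD, fun l h1 h2 => ?_⟩
          omega
        · exfalso
          refine hnb k (by omega) (hBad _ hkS _ hS ?_ ?_ ?_ hkD hD)
          · exact he2 _ _ (by omega) (by omega)
          · have h1 : e (t + (j + 1)) ≤ e (t + M) := by
              rcases Nat.lt_or_ge (j + 1) M with hlt | hge
              · exact (he2 _ _ (by omega) (by omega)).le
              · have : j + 1 = M := by omega
                rw [this]
            have h2 : e t ≤ e (t + k) := (he2 _ _ (by omega) (by omega)).le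
            omega
          · rintro x hx ⟨hx1, hx2⟩
            obtain ⟨s, hs, rfl⟩ := he3 x (hSS hx)
            have hs1 : t + k < s := by
              by_contra hc
              rcases Nat.lt_or_ge s (t + k) with hlt | hge
              · exact absurd (he2 s (t + k) hlt (by omega)) (by omega)
              · have : s = t + k := by omega
                subst this
                omega
            have hs2 : s < t + (j + 1) := by
              by_contra hc
              rcases Nat.lt_or_ge (t + (j + 1)) s with hlt | hge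
              · exact absurd (he2 (t + (j + 1)) s hlt hs) (by omega)
              · have : s = t + (j + 1) := by omega
                subst this
                omega
            refine hl (s - t) (by omega) (by omega) ?_
            rw [show t + (s - t) = s by omega]
            exact hx
    · have hD : e (t + (j + 1)) ∉ D := fun h => hS (hDS h)
      rw [if_neg hS, if_neg hD]
      rcases ih' with h | ⟨h, k, hk1, hk2, hkS, hkD, hl⟩
      · left
        omega
      · right
        refine ⟨by omega, k, hk1, by omega, hkS, hkD, fun l h1 h2 => ?_⟩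
        rcases Nat.lt_or_ge l (j + 1) with hlt | hge
        · exact hl l h1 (by omega)
        · have : l = j + 1 := by omega
          rw [this]
          exact hS

end aux73

open Classical in
/-- many starts of chains -/
theorem enum (S' S D Bad : Finset ℕ) (hSS : S ⊆ S') (hDS : D ⊆ S) (n1 T μ : ℕ) (hT : 1 ≤ T)
    (hn : ∀ i ∈ S', i < n1)
    (hBad : ∀ a ∈ S, ∀ b ∈ S, a < b → b ≤ a + T → (∀ k ∈ S, ¬ (a < k ∧ k < b)) →
      a ∉ D → b ∉ D → a ∈ Bad)
    (hcard : S'.card ≤ 2 * S.card) :
    (S'.card : ℝ) / 4 - 16 * ((μ : ℝ) + 1) - 8 * ((μ : ℝ) + 1) * n1 / T -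
        (8 * ((μ : ℝ) + 1) + 1) * Bad.card ≤
      ((S'.filter (fun i => chC S' D (8 * (μ + 1)) i μ (i + T))).card : ℝ) := by
  obtain ⟨e, he1, he2, he3⟩ := en73_exists S'
  have hTp : (0 : ℝ) < T := by exact_mod_cast hT
  set n := S'.card with hn'
  set M := 8 * (μ + 1) with hM
  have hMr : (8 : ℝ) * ((μ : ℝ) + 1) = M := by
    rw [hM]
    push_cast
    ring
  have h16 : (16 : ℝ) * ((μ : ℝ) + 1) = 2 * M := by
    rw [← hMr]
    ring
  rw [h16, hMr]
  rcases Nat.lt_or_ge n M with hlt | hge
  · have h1 : (n : ℝ) < M := by exact_mod_cast hlt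
    have h2 : (0 : ℝ) ≤ M * n1 / T := by positivity
    have h3 : (0 : ℝ) ≤ ((M : ℝ) + 1) * Bad.card := by positivity
    have h4 : (0 : ℝ) ≤ ((S'.filter (fun i => chC S' D M i μ (i + T))).card : ℝ) := by positivity
    have h5 : (0 : ℝ) ≤ n := by positivity
    linarith
  -- injectivity
  have hinj : ∀ s t, s < n → t < n → e s = e t → s = t := by
    intro s t hs ht h
    rcases Nat.lt_trichotomy s t with h1 | h1 | h1
    · exact absurd (he2 s t h1 ht) (by omega)
    · exact h1
    · exact absurd (he2 t s h1 hs) (by omega)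
  set R := Finset.range (n - M) with hR
  set G := R.filter (fun t => M ≤ 4 * ct73 e S t M) with hG
  set B1 := R.filter (fun t => e t + T < e (t + M)) with hB1
  set B2 := R.filter (fun t => ∃ k ≤ M, e (t + k) ∈ Bad) with hB2
  -- the number of indices
  have hS1 : ∀ k, k ≤ M → S.card ≤ (R.filter (fun t => e (t + k) ∈ S)).card + M := by
    intro k hk
    have h1 : S ⊆ ((R.filter (fun t => e (t + k) ∈ S)).image (fun t => e (t + k))) ∪
        ((Finset.range k).image e ∪ (Finset.Ico (n - M + k) n).image e) := by
      intro x hx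
      obtain ⟨s, hs, rfl⟩ := he3 x (hSS hx)
      rcases Nat.lt_or_ge s k with h1 | h1
      · refine Finset.mem_union_right _ (Finset.mem_union_left _ ?_)
        exact Finset.mem_image_of_mem _ (Finset.mem_range.2 h1)
      · rcases Nat.lt_or_ge s (n - M + k) with h2 | h2
        · refine Finset.mem_union_left _ ?_
          refine Finset.mem_image.2 ⟨s - k, ?_, by rw [Nat.sub_add_cancel h1]⟩
          rw [Finset.mem_filter, hR, Finset.mem_range, Nat.sub_add_cancel h1]
          exact ⟨by omega, hx⟩
        · refine Finset.mem_union_right _ (Finset.mem_union_right _ ?_)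
          exact Finset.mem_image_of_mem _ (Finset.mem_Ico.2 ⟨h2, hs⟩)
    refine (Finset.card_le_card h1).trans ((Finset.card_union_le _ _).trans ?_)
    refine Nat.add_le_add Finset.card_image_le ((Finset.card_union_le _ _).trans ?_)
    refine (Nat.add_le_add Finset.card_image_le Finset.card_image_le).trans ?_
    rw [Finset.card_range, Nat.card_Ico]
    omega
  have hsum : M * S.card ≤ ∑ t ∈ R, ct73 e S t M + M * M := by
    have h1 : ∑ t ∈ R, ct73 e S t M =
        ∑ k ∈ Finset.range M, (R.filter (fun t => e (t + (k + 1)) ∈ S)).card := by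
      unfold ct73
      rw [Finset.sum_comm]
      refine Finset.sum_congr rfl fun k _ => ?_
      rw [Finset.card_filter]
    rw [h1]
    calc M * S.card = ∑ k ∈ Finset.range M, S.card := by simp
      _ ≤ ∑ k ∈ Finset.range M, ((R.filter (fun t => e (t + (k + 1)) ∈ S)).card + M) :=
          Finset.sum_le_sum fun k hk => hS1 (k + 1) (by
            have := Finset.mem_range.1 hk
            omega)
      _ = _ := by
          rw [Finset.sum_add_distrib]
          simp
  have hsum2 : 4 * ∑ t ∈ R, ct73 e S t M ≤ 4 * M * G.card + M * n := by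
    have h1 : ∀ t ∈ R, 4 * ct73 e S t M ≤ (if M ≤ 4 * ct73 e S t M then 4 * M else 0) + M := by
      intro t _
      have := ct73_le (e := e) S t M
      split_ifs with h
      · omega
      · omega
    calc 4 * ∑ t ∈ R, ct73 e S t M = ∑ t ∈ R, 4 * ct73 e S t M := by rw [Finset.mul_sum]
      _ ≤ ∑ t ∈ R, ((if M ≤ 4 * ct73 e S t M then 4 * M else 0) + M) := Finset.sum_le_sum h1
      _ = 4 * M * G.card + M * R.card := by
          rw [Finset.sum_add_distrib, ← Finset.sum_filter]
          simp only [Finset.sum_const, smul_eq_mul]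
          ring
      _ ≤ 4 * M * G.card + M * n := by
          refine Nat.add_le_add_left (Nat.mul_le_mul_left _ ?_) _
          rw [hR, Finset.card_range]
          omega
  have hMpos : 0 < M := by omega
  have hGcard : (n : ℝ) / 4 - M ≤ G.card := by
    have h1 : 4 * (M * S.card) ≤ 4 * M * G.card + M * n + 4 * (M * M) := by
      have := hsum
      have := hsum2
      omega
    have h2 : M * (4 * S.card) ≤ M * (4 * G.card + n + 4 * M) := by
      calc M * (4 * S.card) = 4 * (M * S.card) := by ring
        _ ≤ _ := h1
        _ = _ := by ring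
    have h3 : 4 * S.card ≤ 4 * G.card + n + 4 * M := Nat.le_of_mul_le_mul_left h2 hMpos
    have h4 : n ≤ 4 * G.card + 4 * M := by omega
    have h5 : (n : ℝ) ≤ 4 * G.card + 4 * M := by exact_mod_cast h4
    linarith
  -- long gaps
  have hB1card : (B1.card : ℝ) ≤ M * n1 / T := by
    have htel : ∀ k, k ≤ M → ∑ t ∈ R, (e (t + k) : ℤ) = ∑ t ∈ R, (e t : ℤ) +
        (∑ t ∈ Finset.range k, ((e (n - M + t) : ℤ) - e t)) := by
      intro k
      induction k with
      | zero =>
        intro _
        simp
      | succ k ih =>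
        intro hk
        rw [Finset.sum_range_succ, ← add_assoc, ← ih (by omega), hR]
        have h1 := Finset.sum_range_succ (fun t => (e (t + k) : ℤ)) (n - M)
        have h2 := Finset.sum_range_succ' (fun t => (e (t + k) : ℤ)) (n - M)
        rw [h1] at h2
        simp only [zero_add] at h2
        have h3 : ∀ t, e (t + (k + 1)) = e (t + 1 + k) := fun t => by
          rw [show t + (k + 1) = t + 1 + k by ring]
        simp only [h3]
        linarith
    have h1 : ∑ t ∈ R, ((e (t + M) : ℤ) - e t) ≤ M * n1 := by
      rw [Finset.sum_sub_distrib, htel M le_rfl]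
      have : ∑ t ∈ Finset.range M, ((e (n - M + t) : ℤ) - e t) ≤ ∑ t ∈ Finset.range M, (n1 : ℤ) := by
        refine Finset.sum_le_sum fun t ht => ?_
        have h2 := hn _ (he1 (n - M + t) (by
          have := Finset.mem_range.1 ht
          omega))
        have h3 : (0 : ℤ) ≤ e t := by positivity
        have h4 : (e (n - M + t) : ℤ) < n1 := by exact_mod_cast h2
        linarith
      simp only [Finset.sum_const, Finset.card_range, nsmul_eq_mul] at this
      linarith
    have h2 : (B1.card : ℤ) * T ≤ ∑ t ∈ R, ((e (t + M) : ℤ) - e t) := by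
      have hnn : ∀ t ∈ R, (0 : ℤ) ≤ (e (t + M) : ℤ) - e t := by
        intro t ht
        have := he2 t (t + M) (by omega) (by
          have := Finset.mem_range.1 (hR ▸ ht)
          omega)
        have : (e t : ℤ) < e (t + M) := by exact_mod_cast this
        linarith
      calc (B1.card : ℤ) * T = ∑ t ∈ B1, (T : ℤ) := by simp
        _ ≤ ∑ t ∈ B1, ((e (t + M) : ℤ) - e t) := by
            refine Finset.sum_le_sum fun t ht => ?_
            rw [hB1, Finset.mem_filter] at ht
            have : ((e t : ℤ) + T) < e (t + M) := by exact_mod_cast ht.2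
            linarith
        _ ≤ _ := Finset.sum_le_sum_of_subset_of_nonneg (Finset.filter_subset _ _)
            (fun t ht _ => hnn t ht)
    have h3 : (B1.card : ℝ) * T ≤ M * n1 := by exact_mod_cast h2.trans h1
    rw [le_div_iff₀ hTp]
    exact h3
  -- bad elements
  have hB2card : (B2.card : ℝ) ≤ ((M : ℝ) + 1) * Bad.card := by
    have h1 : B2 ⊆ (Finset.range (M + 1)).biUnion
        (fun k => R.filter (fun t => e (t + k) ∈ Bad)) := by
      intro t ht
      rw [hB2, Finset.mem_filter] at ht
      obtain ⟨htR, k, hk, hb⟩ := ht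
      rw [Finset.mem_biUnion]
      exact ⟨k, Finset.mem_range.2 (by omega), Finset.mem_filter.2 ⟨htR, hb⟩⟩
    have h2 : ∀ k ∈ Finset.range (M + 1), (R.filter (fun t => e (t + k) ∈ Bad)).card ≤ Bad.card := by
      intro k hk
      refine Finset.card_le_card_of_injOn (fun t => e (t + k)) ?_ ?_
      · intro t ht
        exact (Finset.mem_filter.1 ht).2
      · intro s hs t ht hst
        have h3 := Finset.mem_range.1 (hR ▸ (Finset.mem_filter.1 hs).1)
        have h4 := Finset.mem_range.1 (hR ▸ (Finset.mem_filter.1 ht).1)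
        have h5 := Finset.mem_range.1 hk
        have := hinj (s + k) (t + k) (by omega) (by omega) hst
        omega
    have h3 : B2.card ≤ (M + 1) * Bad.card := by
      refine (Finset.card_le_card h1).trans (Finset.card_biUnion_le.trans ?_)
      refine (Finset.sum_le_sum h2).trans ?_
      simp
    exact_mod_cast h3
  -- the good ones
  have hgood : G.card ≤ B1.card + B2.card +
      (S'.filter (fun i => chC S' D M i μ (i + T))).card := by
    have h1 : (G \ (B1 ∪ B2)).card ≤ (S'.filter (fun i => chC S' D M i μ (i + T))).card := by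
      refine Finset.card_le_card_of_injOn e ?_ ?_
      · intro t ht
        have ht' := Finset.mem_sdiff.1 (Finset.mem_coe.1 ht)
        obtain ⟨hG', hB⟩ := ht'
        rw [hG, Finset.mem_filter] at hG'
        obtain ⟨htR, hc⟩ := hG'
        have htn := Finset.mem_range.1 (hR ▸ htR)
        have hb1 : e (t + M) ≤ e t + T := by
          by_contra hcon
          exact hB (Finset.mem_union_left _ (Finset.mem_filter.2 ⟨htR, by omega⟩))
        have hb2 : ∀ k ≤ M, e (t + k) ∉ Bad := by
          intro k hk hcon
          exact hB (Finset.mem_union_right _ (Finset.mem_filter.2 ⟨htR, k, hk, hcon⟩))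
        have hhalf := half73 (S' := S') he2 he3 hSS hDS T t M hBad (by omega) hb1 hb2 M le_rfl
        refine Finset.mem_coe.2 (Finset.mem_filter.2 ⟨he1 t (by omega), ?_⟩)
        refine chain73 he1 he2 he3 (e t + T) M t μ (by omega) (fun _ => hb1) ?_
        rcases hhalf with h | ⟨h, -⟩ <;> omega
      · intro s hs t ht hst
        have h1 := (Finset.mem_sdiff.1 (Finset.mem_coe.1 hs)).1
        have h2 := (Finset.mem_sdiff.1 (Finset.mem_coe.1 ht)).1
        rw [hG, Finset.mem_filter] at h1 h2
        have h3 := Finset.mem_range.1 (hR ▸ h1.1)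
        have h4 := Finset.mem_range.1 (hR ▸ h2.1)
        exact hinj s t (by omega) (by omega) hst
    have h2 : G.card ≤ (G \ (B1 ∪ B2)).card + (B1 ∪ B2).card := by
      have := Finset.le_card_sdiff (B1 ∪ B2) G
      omega
    have h3 := Finset.card_union_le B1 B2
    omega
  have hgood' : (G.card : ℝ) ≤ B1.card + B2.card +
      ((S'.filter (fun i => chC S' D M i μ (i + T))).card : ℝ) := by
    exact_mod_cast hgood
  have hM0 : (0 : ℝ) ≤ M := by positivity
  linarith

end Pool.Agent.H75H
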