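import Pool.Agent.H75H.Step

set_option autoImplicit false

namespace Pool.Agent.H75H

open Filter Topology
open Pool.Agent.H5.GR
open Pool.Agent.H75G

/-- the main estimate with explicit hypotheses -/
theorem core3 (N : ℕ) (s C lam : ℝ) (T K : ℕ) (hsN : s ^ 2 = N) (hs : s = Real.exp lam)
    (hC : 1 ≤ C) (hT : 1000 ≤ T) (hTC : 128 * C ^ 2 * (16 * (K : ℝ) + 24) ≤ T)
    (hTl : 10 * lam + 10 ≤ T) (hK : 3 ≤ K)
    (hbig : 3200 * ((K : ℝ) + 2) ^ 2 * Real.log ((T : ℝ) ^ 4) ≤ lam)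
    (hgain : 8 * C ^ 2 < 2 ^ (K - 3)) : C * s ≤ f N := by
  classical
  by_contra hcon
  push Not at hcon
  have hC0 : 0 < C := by linarith
  have hC2 : 1 ≤ C ^ 2 := one_le_pow₀ hC
  have hT0 : (1000 : ℝ) ≤ T := by exact_mod_cast hT
  have hTG : (T : ℝ) ≤ (T : ℝ) ^ 4 := le_self_pow₀ (by linarith) (by norm_num)
  have hG1 : (1 : ℝ) ≤ (T : ℝ) ^ 4 := by linarith
  have hlogG : 0 ≤ Real.log ((T : ℝ) ^ 4) := Real.log_nonneg hG1
  have hK2 : 1 ≤ (K + 2) ^ 2 := Nat.one_le_pow _ _ (by omega)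
  have hs1 := pow_le_s s ((T : ℝ) ^ 4) lam K hs hG1 hbig 1 (by omega)
  rw [pow_one] at hs1
  have hs0 : 0 < s := by linarith
  obtain ⟨n0, n1, hw, hn1, hsum⟩ := exists_window N s C (by linarith) hsN hC hcon
  have hbc := big_card N n0 n1 s C hw hn1 hsum
  have key : ∀ j : ℕ, j + 3 ≤ K → 2 ^ j * (s / (8 * C)) ≤
      ((lev N n0 n1 (((T : ℝ) ^ 4) ^ (200 * (j + 3)))).card : ℝ) := by
    intro j
    induction j with
    | zero =>
      intro _
      rw [pow_zero, one_mul]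
      refine hbc.trans ?_
      have : big N n0 n1 s C ⊆ lev N n0 n1 (((T : ℝ) ^ 4) ^ (200 * (0 + 3))) := by
        intro i hi
        have h1 := big_v N n0 n1 s C hw i hi
        rw [mem_big] at hi
        rw [mem_lev]
        refine ⟨hi.1, h1.trans ?_⟩
        have h2 : (T : ℝ) ^ 4 ≤ ((T : ℝ) ^ 4) ^ (200 * (0 + 3)) :=
          le_self_pow₀ hG1 (by norm_num)
        refine le_trans ?_ h2
        refine le_trans ?_ hTG
        refine le_trans ?_ hTC
        have : (0 : ℝ) ≤ K := by positivity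
        nlinarith
      exact_mod_cast Finset.card_le_card this
    | succ j ih =>
      intro hj
      have ih' := ih (by omega)
      have hjK : ((j + 3 : ℕ) : ℝ) ≤ K := by exact_mod_cast (by omega : j + 3 ≤ K)
      have hS : s / (8 * C) ≤ ((lev N n0 n1 (((T : ℝ) ^ 4) ^ (200 * (j + 3)))).card : ℝ) := by
        refine le_trans ?_ ih'
        have h1 : (1 : ℝ) ≤ 2 ^ j := one_le_pow₀ (by norm_num)
        have h2 : 0 ≤ s / (8 * C) := by positivity
        nlinarith
      have hst := step N n0 n1 s C lam hw hn1 hs T (j + 3) hT (by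
          refine le_trans ?_ hTC
          apply mul_le_mul_of_nonneg_left _ (by positivity)
          linarith) hTl (by omega) (by
          refine le_trans ?_ hbig
          apply mul_le_mul_of_nonneg_right _ hlogG
          apply mul_le_mul_of_nonneg_left _ (by norm_num)
          apply pow_le_pow_left₀ (by positivity)
          linarith) hS
      have h3 : j + 1 + 3 = j + 3 + 1 := by ring
      rw [h3, pow_succ]
      calc 2 ^ j * 2 * (s / (8 * C)) = 2 * (2 ^ j * (s / (8 * C))) := by ring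
        _ ≤ 2 * ((lev N n0 n1 (((T : ℝ) ^ 4) ^ (200 * (j + 3)))).card : ℝ) := by linarith
        _ ≤ _ := hst
  have hfin := key (K - 3) (by omega)
  have hcard : ((lev N n0 n1 (((T : ℝ) ^ 4) ^ (200 * (K - 3 + 3)))).card : ℝ) ≤ C * s := by
    refine le_trans ?_ hn1
    have : lev N n0 n1 (((T : ℝ) ^ 4) ^ (200 * (K - 3 + 3))) ⊆ Finset.range n1 := by
      intro i hi
      rw [mem_lev] at hi
      rw [Finset.mem_range]
      exact hi.1.2
    have h2 := Finset.card_le_card this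
    rw [Finset.card_range] at h2
    exact_mod_cast h2
  have h1 : (2 : ℝ) ^ (K - 3) * (s / (8 * C)) ≤ C * s := hfin.trans hcard
  rw [mul_div_assoc', div_le_iff₀ (by positivity)] at h1
  have h2 : (2 : ℝ) ^ (K - 3) * s ≤ (8 * C ^ 2) * s := by
    calc (2 : ℝ) ^ (K - 3) * s ≤ C * s * (8 * C) := h1
      _ = (8 * C ^ 2) * s := by ring
  have h3 := le_of_mul_le_mul_right h2 hs0
  linarith

/-- the choice of the parameters in terms of `t = (log N) ^ (1 / 3)` -/
theorem params_t : ∀ᶠ t : ℝ in atTop, ∃ T K : ℕ, 1000 ≤ T ∧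
    128 * Real.exp (t / 100) ^ 2 * (16 * (K : ℝ) + 24) ≤ T ∧
    10 * (t ^ 3 / 2) + 10 ≤ T ∧ 3 ≤ K ∧
    3200 * ((K : ℝ) + 2) ^ 2 * Real.log ((T : ℝ) ^ 4) ≤ t ^ 3 / 2 ∧
    8 * Real.exp (t / 100) ^ 2 < 2 ^ (K - 3) := by
  have hlo1 : ∀ᶠ t : ℝ in atTop, 1000 * t ≤ Real.exp (1 / 1200 * t) := by
    have h := isLittleO_pow_exp_pos_mul_atTop 1 (b := (1 / 1200 : ℝ)) (by norm_num)
    have h2 := h.bound (show (0 : ℝ) < 1 / 1000 by norm_num)
    filter_upwards [h2, eventually_ge_atTop (0 : ℝ)] with t ht ht0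
    rw [pow_one, Real.norm_of_nonneg ht0, Real.norm_of_nonneg (Real.exp_pos _).le] at ht
    linarith
  have hlo2 : ∀ᶠ t : ℝ in atTop, 1000 * t ^ 3 ≤ Real.exp (1 / 48 * t) := by
    have h := isLittleO_pow_exp_pos_mul_atTop 3 (b := (1 / 48 : ℝ)) (by norm_num)
    have h2 := h.bound (show (0 : ℝ) < 1 / 1000 by norm_num)
    filter_upwards [h2, eventually_ge_atTop (0 : ℝ)] with t ht ht0
    rw [Real.norm_of_nonneg (by positivity), Real.norm_of_nonneg (Real.exp_pos _).le] at ht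
    linarith
  filter_upwards [hlo1, hlo2, eventually_ge_atTop (10000 : ℝ)] with t h1 h2 h3
  have hsq : Real.exp (t / 100) ^ 2 = Real.exp (t / 50) := by
    rw [← Real.exp_nat_mul]
    congr 1
    push_cast
    ring
  rw [hsq]
  have ht0 : 0 < t := by linarith
  obtain ⟨K, hK1, hK2⟩ : ∃ K : ℕ, (K : ℝ) ≤ 43 / 1000 * t ∧ 43 / 1000 * t - 1 < (K : ℝ) := by
    refine ⟨⌊43 / 1000 * t⌋₊, Nat.floor_le (by positivity), ?_⟩
    have := Nat.lt_floor_add_one (43 / 1000 * t)
    linarith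
  have hK3 : 3 ≤ K := by
    have : (3 : ℝ) ≤ K := by linarith
    exact_mod_cast this
  have hX0 : 0 ≤ 128 * Real.exp (t / 50) * (16 * (K : ℝ) + 24) := by positivity
  obtain ⟨T, hT1, hT2⟩ : ∃ T : ℕ,
      128 * Real.exp (t / 50) * (16 * (K : ℝ) + 24) + 5 * t ^ 3 + 1010 ≤ (T : ℝ) ∧
      (T : ℝ) ≤ 128 * Real.exp (t / 50) * (16 * (K : ℝ) + 24) + 5 * t ^ 3 + 1010 + 1 := by
    refine ⟨⌈128 * Real.exp (t / 50) * (16 * (K : ℝ) + 24) + 5 * t ^ 3 + 1010⌉₊, Nat.le_ceil _, ?_⟩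
    exact (Nat.ceil_lt_add_one (by positivity)).le
  have ht3 : 0 ≤ t ^ 3 := by positivity
  refine ⟨T, K, ?_, by linarith, by linarith, hK3, ?_, ?_⟩
  · have : (1000 : ℝ) ≤ T := by linarith
    exact_mod_cast this
  · -- `log T ≤ t / 48`
    have g1 : (T : ℝ) ≤ Real.exp (t / 48) := by
      have e1 : Real.exp (t / 48) = Real.exp (t / 50) * Real.exp (1 / 1200 * t) := by
        rw [← Real.exp_add]
        congr 1
        ring
      have e2 : Real.exp (1 / 48 * t) = Real.exp (t / 48) := by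
        congr 1
        ring
      rw [e2] at h2
      have e3 : 128 * Real.exp (t / 50) * (16 * (K : ℝ) + 24) ≤ Real.exp (t / 48) / 2 := by
        have e4 : 128 * (16 * (K : ℝ) + 24) ≤ Real.exp (1 / 1200 * t) / 2 := by linarith
        calc 128 * Real.exp (t / 50) * (16 * (K : ℝ) + 24) =
            Real.exp (t / 50) * (128 * (16 * (K : ℝ) + 24)) := by ring
          _ ≤ Real.exp (t / 50) * (Real.exp (1 / 1200 * t) / 2) := by
              apply mul_le_mul_of_nonneg_left e4 (Real.exp_pos _).le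
          _ = Real.exp (t / 48) / 2 := by rw [e1]; ring
      have e5 : (1 : ℝ) ≤ t ^ 3 := one_le_pow₀ (by linarith)
      have e6 : (10000 : ℝ) ≤ t ^ 3 := by
        calc (10000 : ℝ) ≤ t := h3
          _ ≤ t ^ 3 := le_self_pow₀ (by linarith) (by norm_num)
      linarith
    have hTpos : (0 : ℝ) < T := by linarith
    have g2 : Real.log T ≤ t / 48 := by
      rw [Real.log_le_iff_le_exp hTpos]
      exact g1
    have g3 : Real.log ((T : ℝ) ^ 4) ≤ t / 12 := by
      rw [Real.log_pow]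
      push_cast
      linarith
    have g4 : ((K : ℝ) + 2) ^ 2 ≤ (433 / 10000 * t) ^ 2 := by
      apply pow_le_pow_left₀ (by positivity)
      linarith
    calc 3200 * ((K : ℝ) + 2) ^ 2 * Real.log ((T : ℝ) ^ 4) ≤
        3200 * ((K : ℝ) + 2) ^ 2 * (t / 12) := by
          apply mul_le_mul_of_nonneg_left g3 (by positivity)
      _ ≤ 3200 * (433 / 10000 * t) ^ 2 * (t / 12) := by
          apply mul_le_mul_of_nonneg_right _ (by positivity)
          apply mul_le_mul_of_nonneg_left g4 (by norm_num)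
      _ = (3200 * (433 / 10000) ^ 2 / 12) * t ^ 3 := by ring
      _ ≤ (1 / 2) * t ^ 3 := by
          apply mul_le_mul_of_nonneg_right _ ht3
          norm_num
      _ = t ^ 3 / 2 := by ring
  · have l2 := Real.log_two_gt_d9
    have k1 : (8 : ℝ) ≤ Real.exp (21 / 10) := by
      have e1 : (2.7 : ℝ) < Real.exp 1 := by
        have := Real.exp_one_gt_d9
        linarith
      have h : Real.exp (21 / 10) = Real.exp 1 ^ 2 * Real.exp (1 / 10) := by
        rw [← Real.exp_nat_mul, ← Real.exp_add]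
        norm_num
      have h4 := Real.add_one_le_exp (1 / 10 : ℝ)
      rw [h]
      calc (8 : ℝ) ≤ 2.7 ^ 2 * (1 / 10 + 1) := by norm_num
        _ ≤ Real.exp 1 ^ 2 * Real.exp (1 / 10) := by
            apply mul_le_mul _ h4 (by norm_num) (by positivity)
            exact pow_le_pow_left₀ (by norm_num) e1.le 2
    have k2 : Real.exp (69 / 100 * ((K : ℝ) - 3)) ≤ 2 ^ (K - 3) := by
      have h5 : ((K - 3 : ℕ) : ℝ) = (K : ℝ) - 3 := by
        rw [Nat.cast_sub hK3]
        norm_num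
      have h6 : (2 : ℝ) ^ (K - 3) = Real.exp ((K - 3 : ℕ) * Real.log 2) := by
        rw [Real.exp_nat_mul, Real.exp_log (by norm_num)]
      rw [h6, h5]
      apply Real.exp_le_exp.mpr
      have h7 : (0 : ℝ) ≤ (K : ℝ) - 3 := by
        have : (3 : ℝ) ≤ K := by exact_mod_cast hK3
        linarith
      nlinarith
    calc 8 * Real.exp (t / 50) ≤ Real.exp (21 / 10) * Real.exp (t / 50) := by
          apply mul_le_mul_of_nonneg_right k1 (Real.exp_pos _).le
      _ = Real.exp (21 / 10 + t / 50) := by rw [Real.exp_add]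
      _ < Real.exp (69 / 100 * ((K : ℝ) - 3)) := by
          apply Real.exp_lt_exp.mpr
          linarith
      _ ≤ 2 ^ (K - 3) := k2

/-- the choice of the parameters for large `N` -/
theorem params3 : ∀ᶠ N : ℕ in atTop, ∃ T K : ℕ, 1000 ≤ T ∧
    128 * Real.exp (Real.log N ^ ((1 : ℝ) / 3) / 100) ^ 2 * (16 * (K : ℝ) + 24) ≤ T ∧
    10 * (Real.log N / 2) + 10 ≤ T ∧ 3 ≤ K ∧
    3200 * ((K : ℝ) + 2) ^ 2 * Real.log ((T : ℝ) ^ 4) ≤ Real.log N / 2 ∧
    8 * Real.exp (Real.log N ^ ((1 : ℝ) / 3) / 100) ^ 2 < 2 ^ (K - 3) := by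
  have ht1 : Tendsto (fun N : ℕ => Real.log (N : ℝ)) atTop atTop :=
    Real.tendsto_log_atTop.comp tendsto_natCast_atTop_atTop
  have ht2 : Tendsto (fun N : ℕ => Real.log (N : ℝ) ^ ((1 : ℝ) / 3)) atTop atTop :=
    (tendsto_rpow_atTop (by norm_num)).comp ht1
  filter_upwards [ht2.eventually params_t, ht1.eventually_ge_atTop 0] with N hN hpos
  have h : (Real.log (N : ℝ) ^ ((1 : ℝ) / 3)) ^ 3 = Real.log N := by
    rw [← Real.rpow_natCast, ← Real.rpow_mul hpos]
    norm_num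
  rw [h] at hN
  exact hN

/-- `f(N) ≥ √N exp ((log N)^(1/3) / 100)` for all large `N` -/
theorem main3 : ∃ N₀ : ℕ, ∀ N : ℕ, N₀ ≤ N →
    Real.sqrt N * Real.exp (Real.log N ^ ((1 : ℝ) / 3) / 100) ≤ (f N : ℝ) := by
  obtain ⟨N₀, hN₀⟩ := eventually_atTop.mp (params3.and (eventually_gt_atTop 0))
  refine ⟨N₀, fun N hN => ?_⟩
  obtain ⟨⟨T, K, h1, h2, h3, h4, h5, h6⟩, hpos⟩ := hN₀ N hN
  have hN1 : (1 : ℝ) ≤ N := by exact_mod_cast hpos
  have hNpos : (0 : ℝ) < N := by linarith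
  have hlog : 0 ≤ Real.log N := Real.log_nonneg hN1
  rw [mul_comm]
  refine core3 N (Real.sqrt N) (Real.exp (Real.log N ^ ((1 : ℝ) / 3) / 100)) (Real.log N / 2) T K
    (Real.sq_sqrt hNpos.le) ?_ ?_ h1 h2 h3 h4 h5 h6
  · rw [Real.exp_half, Real.exp_log hNpos]
  · rw [← Real.exp_zero]
    apply Real.exp_le_exp.mpr
    positivity

end Pool.Agent.H75H
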