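import Mathlib

set_option autoImplicit false

/-
Proof sketch (helper75). hbig gives G^j ≤ s for every natural j ≤ 3200 (k+2)^2 (log G^j = j log G).
(1) 10 G^(400 (k+1)) < G^(400 (k+1) + 1) ≤ s (10 < G).
(2) B := (G^(200 (k+1)))^(16 k + 25) ≥ G ≥ 2 T + 8, so the factor is ≤ 2 B and the product is
≤ (48 C) B G^(200 (k+1)) ≤ G^(1 + 200 (k+1) (16 k + 26)) ≤ s,
as 1 + 200 (k+1) (16 k + 26) = 3200 k^2 + 8400 k + 5201 ≤ 3200 (k+2)^2.
(3) (T+6)^(16 k + 25) ≤ G^(16 k + 25), so the first fraction is ≤ 4 / G^200; the second is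
(48 T + 96) / G^200 (G^(200 (k+1)) = G^(200 k) G^200) with 48 T + 96 ≤ G; times G^199: ≤ 4/G + 1 ≤ 2.
So the whole is ≤ G (48 T + 102) ≤ G^3.
-/

namespace Pool.Agent.H75H

theorem pow_le_s (s G lam : ℝ) (k : ℕ) (hs : s = Real.exp lam) (hG : 1 ≤ G)
    (hbig : 3200 * ((k : ℝ) + 2) ^ 2 * Real.log G ≤ lam) (j : ℕ) (hj : j ≤ 3200 * (k + 2) ^ 2) :
    G ^ j ≤ s := by
  rw [hs]
  have hG0 : 0 < G := by linarith
  rw [← Real.exp_log (pow_pos hG0 j), Real.log_pow]
  apply Real.exp_le_exp.mpr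
  refine le_trans ?_ hbig
  apply mul_le_mul_of_nonneg_right _ (Real.log_nonneg hG)
  exact_mod_cast hj

/-- side conditions for one step -/
theorem numA (s C G lam : ℝ) (T k : ℕ) (hs : s = Real.exp lam) (hC : 1 ≤ C)
    (hG : 1000000 ≤ G) (hT : 100 * ((T : ℝ) + 6) ≤ G) (hCG : 48 * C ≤ G)
    (hbig : 3200 * ((k : ℝ) + 2) ^ 2 * Real.log G ≤ lam) :
    10 * (G ^ (200 * (k + 1))) ^ 2 < s ∧
    24 * C * ((G ^ (200 * (k + 1))) ^ (16 * k + 25) + 2 * T + 8) * G ^ (200 * (k + 1)) ≤ s ∧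
    G * (48 * (T : ℝ) + 100 + G ^ 199 * (4 * ((T : ℝ) + 6) ^ (16 * k + 25) / G ^ (16 * k + 225) +
      (48 * (T : ℝ) + 96) * G ^ (200 * k) / G ^ (200 * (k + 1)))) ≤ G ^ 3 := by
  have hG1 : 1 ≤ G := by linarith
  have hG0 : 0 < G := by linarith
  have hT0 : (0 : ℝ) ≤ T := by positivity
  refine ⟨?_, ?_, ?_⟩
  · have hj : 400 * (k + 1) + 1 ≤ 3200 * (k + 2) ^ 2 := by ring_nf; omega
    have h := pow_le_s s G lam k hs hG1 hbig _ hj
    have e : (G ^ (200 * (k + 1))) ^ 2 = G ^ (400 * (k + 1)) := by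
      rw [← pow_mul, show 200 * (k + 1) * 2 = 400 * (k + 1) by ring]
    rw [e]
    have h0 : 0 < G ^ (400 * (k + 1)) := by positivity
    calc 10 * G ^ (400 * (k + 1)) < G * G ^ (400 * (k + 1)) :=
          mul_lt_mul_of_pos_right (by linarith) h0
      _ = G ^ (400 * (k + 1) + 1) := by rw [pow_succ]; ring
      _ ≤ s := h
  · have hj : 200 * (k + 1) * (16 * k + 26) + 1 ≤ 3200 * (k + 2) ^ 2 := by ring_nf; omega
    have h := pow_le_s s G lam k hs hG1 hbig _ hj
    set X : ℝ := G ^ (200 * (k + 1)) with hX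
    have hX1 : 1 ≤ X := one_le_pow₀ hG1
    have hXG : G ≤ X := le_self_pow₀ hG1 (by omega)
    have hB : X ≤ X ^ (16 * k + 25) := le_self_pow₀ hX1 (by omega)
    have e : G ^ (200 * (k + 1) * (16 * k + 26) + 1) = G * (X ^ (16 * k + 25) * X) := by
      rw [pow_succ, pow_mul, ← hX, pow_succ X (16 * k + 25)]
      ring
    rw [e] at h
    have hBX : 0 ≤ X ^ (16 * k + 25) * X := by positivity
    calc 24 * C * (X ^ (16 * k + 25) + 2 * T + 8) * X ≤
        24 * C * (X ^ (16 * k + 25) + X ^ (16 * k + 25)) * X := by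
          apply mul_le_mul_of_nonneg_right _ (by linarith)
          apply mul_le_mul_of_nonneg_left _ (by linarith)
          linarith
      _ = 48 * C * (X ^ (16 * k + 25) * X) := by ring
      _ ≤ G * (X ^ (16 * k + 25) * X) := mul_le_mul_of_nonneg_right hCG hBX
      _ ≤ s := h
  · have e1 : 4 * ((T : ℝ) + 6) ^ (16 * k + 25) / G ^ (16 * k + 225) ≤ 4 / G ^ 200 := by
      have h1 : ((T : ℝ) + 6) ^ (16 * k + 25) ≤ G ^ (16 * k + 25) :=
        pow_le_pow_left₀ (by linarith) (by linarith) _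
      have h2 : G ^ (16 * k + 225) = G ^ (16 * k + 25) * G ^ 200 := by
        rw [← pow_add]
      rw [h2, div_le_div_iff₀ (by positivity) (by positivity)]
      have h3 : 0 ≤ G ^ 200 := by positivity
      calc 4 * ((T : ℝ) + 6) ^ (16 * k + 25) * G ^ 200 ≤ 4 * G ^ (16 * k + 25) * G ^ 200 := by
            apply mul_le_mul_of_nonneg_right _ h3
            linarith
        _ = 4 * (G ^ (16 * k + 25) * G ^ 200) := by ring
    have e2 : (48 * (T : ℝ) + 96) * G ^ (200 * k) / G ^ (200 * (k + 1)) =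
        (48 * (T : ℝ) + 96) / G ^ 200 := by
      have h2 : G ^ (200 * (k + 1)) = G ^ (200 * k) * G ^ 200 := by
        rw [← pow_add]; congr 1
      rw [h2, mul_comm (48 * (T : ℝ) + 96) _, mul_div_mul_left _ _ (by positivity)]
    rw [e2]
    have e3 : G ^ 199 * (4 * ((T : ℝ) + 6) ^ (16 * k + 25) / G ^ (16 * k + 225) +
        (48 * (T : ℝ) + 96) / G ^ 200) ≤ 1 := by
      have h1 : G ^ 199 * (4 * ((T : ℝ) + 6) ^ (16 * k + 25) / G ^ (16 * k + 225) +
          (48 * (T : ℝ) + 96) / G ^ 200) ≤ G ^ 199 * (4 / G ^ 200 + (48 * (T : ℝ) + 96) / G ^ 200) := by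
        apply mul_le_mul_of_nonneg_left _ (by positivity)
        linarith
      refine h1.trans ?_
      rw [← add_div, mul_div_assoc', div_le_one (by positivity)]
      have h3 : G ^ 200 = G ^ 199 * G := by rw [← pow_succ]
      rw [h3]
      apply mul_le_mul_of_nonneg_left _ (by positivity)
      linarith
    calc G * (48 * (T : ℝ) + 100 + G ^ 199 * (4 * ((T : ℝ) + 6) ^ (16 * k + 25) / G ^ (16 * k + 225) +
          (48 * (T : ℝ) + 96) / G ^ 200)) ≤ G * (48 * (T : ℝ) + 100 + 1) := by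
          apply mul_le_mul_of_nonneg_left _ hG0.le
          linarith
      _ ≤ G * G := by
          apply mul_le_mul_of_nonneg_left _ hG0.le
          linarith
      _ ≤ G ^ 3 := by
          have : G ^ 3 = G * G * G := by ring
          rw [this]
          have h0 : 0 ≤ G * G := by positivity
          nlinarith

end Pool.Agent.H75H
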