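import Pool.Agent.H75H.NumA

set_option autoImplicit false

/-
Proof sketch (helper75). P = G^(200 k), P1 = G^(16 k + 225), G^j ≤ s for j ≤ 3200 (k+2)^2 (`pow_le_s`).
ε ≤ 12 G^2 / P: 2 T / P ≤ 2 G / P, 10 (T+48)^2 / s ≤ 10 G^2 / s ≤ 10 G^2 / P. Hence ε ≤ 1.
1 + log P ≤ 1 + lam ≤ G (200 k ≤ 3200 (k+2)^2).
3 T (10 (T+6) P1^2 + 1) ≤ 3 G * 11 G P1^2 = 33 G^2 P1^2;
8 ε C^3 s (T+6)^4 ≤ 96 G^9 s / P; 8 (T (1 + log P))^2 ≤ 8 G^4. Product ≤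
33 * 8 * G^6 P1^2 (96 G^9 s / P + P^2). Times (16 k + 25) ≤ G:
≤ 25344 G^16 (P1^2 / P) s + 264 G^7 P1^2 P^2 with P1^2 / P = G^(32 k + 450) / G^(200 k) ≤ G^(-54) (k ≥ 3),
so the first term is ≤ G^(-30) s ≤ s / (2 G); second: 264 G^(7 + 32 k + 450 + 400 k) ≤ G^(432 k + 458), and
2 G * G^(432 k + 458) ≤ G^(432 k + 460) ≤ s.
-/

namespace Pool.Agent.H75H

private theorem nb64 (k : ℕ) : 432 * k + 459 ≤ 3200 * (k + 2) ^ 2 := by nlinarith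

/-- the number of bad pairs is negligible -/
theorem numB (s C G lam ε : ℝ) (T k : ℕ) (hs : s = Real.exp lam) (hC : 1 ≤ C)
    (hG : 1000000 ≤ G) (hT : 100 * ((T : ℝ) + 6) ≤ G) (hCG : 48 * C ≤ G) (hlG : 1 + lam ≤ G)
    (hkG : 16 * (k : ℝ) + 25 ≤ G) (hk : 3 ≤ k)
    (hbig : 3200 * ((k : ℝ) + 2) ^ 2 * Real.log G ≤ lam)
    (hε : ε = 2 * T / G ^ (200 * k) + 10 * ((T : ℝ) + 48) ^ 2 / s) :
    1 ≤ G ^ (16 * k + 225) ∧ G ^ (16 * k + 225) ≤ G ^ (200 * k) ∧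
    10 * (G ^ (200 * k)) ^ 2 < s ∧ 2 * ((T : ℝ) + 6) ≤ s ∧ ε ≤ 1 ∧
    (16 * (k : ℝ) + 25) * (3 * T * (10 * ((T : ℝ) + 6) * (G ^ (16 * k + 225)) ^ 2 + 1) *
        ((8 * ε * C ^ 3 * s * ((T : ℝ) + 6) ^ 4 + (G ^ (200 * k)) ^ 2) *
          (8 * ((T : ℝ) * (1 + Real.log (G ^ (200 * k)))) ^ 2))) ≤ s / G := by
  have hG1 : (1 : ℝ) ≤ G := by linarith
  have hG0 : 0 < G := by linarith
  have hT0 : (0 : ℝ) ≤ T := Nat.cast_nonneg T
  have hs0 : 0 < s := by rw [hs]; exact Real.exp_pos _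
  have hps := pow_le_s s G lam k hs hG1 hbig
  have hQ1 : 1 ≤ G ^ (16 * k + 225) := one_le_pow₀ hG1
  have hQP : G ^ (16 * k + 225) ≤ G ^ (200 * k) := pow_le_pow_right₀ hG1 (by omega)
  have hP2 : 10 * (G ^ (200 * k)) ^ 2 < s := by
    have h1 : G ^ (400 * k + 1) ≤ s := hps _ (le_trans (by omega) (nb64 k))
    have h2 : G ^ (400 * k + 1) = (G ^ (200 * k)) ^ 2 * G := by
      rw [← pow_mul, ← pow_succ]; congr 1; ring
    have h3 : 0 < (G ^ (200 * k)) ^ 2 := by positivity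
    rw [h2] at h1
    nlinarith
  have hPs : G ^ (200 * k) ≤ s := hps _ (le_trans (by omega) (nb64 k))
  have hG3 : G ^ 3 ≤ s := hps 3 (le_trans (by omega) (nb64 k))
  have hGs : G ≤ s := by
    have := hps 1 (le_trans (by omega) (nb64 k))
    rwa [pow_one] at this
  have hTG : (T : ℝ) ≤ G := by linarith
  have hT6 : (T : ℝ) + 6 ≤ G := by linarith
  have hT48 : (T : ℝ) + 48 ≤ G := by linarith
  have hTs : 2 * ((T : ℝ) + 6) ≤ s := by linarith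
  have hCG' : C ≤ G := by linarith
  have hC0 : 0 ≤ C := by linarith
  have hGP : G ≤ G ^ (200 * k) := by
    have := pow_le_pow_right₀ hG1 (show 1 ≤ 200 * k by omega)
    rwa [pow_one] at this
  -- `1 + log P ≤ G`
  have hlog0 : 0 ≤ Real.log G := Real.log_nonneg hG1
  have hlogP : 1 + Real.log (G ^ (200 * k)) ≤ G := by
    rw [Real.log_pow]
    have h1 : ((200 * k : ℕ) : ℝ) ≤ 3200 * ((k : ℝ) + 2) ^ 2 := by
      have : 200 * k ≤ 3200 * (k + 2) ^ 2 := le_trans (by omega) (nb64 k)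
      exact_mod_cast this
    have h2 := mul_le_mul_of_nonneg_right h1 hlog0
    linarith
  have hlogP0 : 0 ≤ Real.log (G ^ (200 * k)) := Real.log_nonneg (one_le_pow₀ hG1)
  -- `ε`
  have hPpos : 0 < G ^ (200 * k) := by positivity
  have hε0 : 0 ≤ ε := by rw [hε]; positivity
  have hT48' : ((T : ℝ) + 48) ^ 2 ≤ G ^ 2 := pow_le_pow_left₀ (by linarith) hT48 2
  have hεP : ε ≤ 12 * G ^ 2 / G ^ (200 * k) := by
    rw [hε]
    have h1 : 2 * (T : ℝ) / G ^ (200 * k) ≤ 2 * G ^ 2 / G ^ (200 * k) := by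
      apply div_le_div_of_nonneg_right _ hPpos.le
      nlinarith
    have h2 : 10 * ((T : ℝ) + 48) ^ 2 / s ≤ 10 * G ^ 2 / G ^ (200 * k) := by
      apply div_le_div₀ (by positivity) (by linarith) hPpos hPs
    have h3 : 2 * G ^ 2 / G ^ (200 * k) + 10 * G ^ 2 / G ^ (200 * k) =
        12 * G ^ 2 / G ^ (200 * k) := by ring
    linarith
  have hε1 : ε ≤ 1 := by
    refine hεP.trans ?_
    rw [div_le_one hPpos]
    have h1 : G ^ 3 ≤ G ^ (200 * k) := pow_le_pow_right₀ hG1 (by omega)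
    have h2 : G ^ 3 = G * G ^ 2 := by ring
    have h3 : 0 < G ^ 2 := by positivity
    nlinarith
  refine ⟨hQ1, hQP, hP2, hTs, hε1, ?_⟩
  set P : ℝ := G ^ (200 * k) with hP
  set Q : ℝ := G ^ (16 * k + 225) with hQ
  have hQ0 : 0 < Q := by linarith
  have hQ2 : 1 ≤ Q ^ 2 := one_le_pow₀ hQ1
  -- the three factors
  have f1 : 3 * (T : ℝ) * (10 * ((T : ℝ) + 6) * Q ^ 2 + 1) ≤ 33 * G ^ 2 * Q ^ 2 := by
    have h1 : 10 * ((T : ℝ) + 6) * Q ^ 2 + 1 ≤ 11 * G * Q ^ 2 := by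
      have h2 : 10 * ((T : ℝ) + 6) * Q ^ 2 ≤ 10 * G * Q ^ 2 := by gcongr
      have h3 : 1 ≤ G * Q ^ 2 := one_le_mul_of_one_le_of_one_le hG1 hQ2
      linarith
    calc 3 * (T : ℝ) * (10 * ((T : ℝ) + 6) * Q ^ 2 + 1) ≤ 3 * G * (11 * G * Q ^ 2) := by
          gcongr
      _ = 33 * G ^ 2 * Q ^ 2 := by ring
  have f2 : 8 * ε * C ^ 3 * s * ((T : ℝ) + 6) ^ 4 + P ^ 2 ≤ 96 * G ^ 9 * s / P + P ^ 2 := by
    have h1 : 8 * ε * C ^ 3 * s * ((T : ℝ) + 6) ^ 4 ≤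
        8 * (12 * G ^ 2 / P) * G ^ 3 * s * G ^ 4 := by gcongr
    have h2 : 8 * (12 * G ^ 2 / P) * G ^ 3 * s * G ^ 4 = 96 * G ^ 9 * s / P := by ring
    linarith
  have f3 : 8 * ((T : ℝ) * (1 + Real.log P)) ^ 2 ≤ 8 * G ^ 4 := by
    have h1 : (T : ℝ) * (1 + Real.log P) ≤ G * G :=
      mul_le_mul hTG hlogP (by linarith) hG0.le
    have h2 : ((T : ℝ) * (1 + Real.log P)) ^ 2 ≤ (G * G) ^ 2 :=
      pow_le_pow_left₀ (mul_nonneg hT0 (by linarith)) h1 2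
    calc 8 * ((T : ℝ) * (1 + Real.log P)) ^ 2 ≤ 8 * (G * G) ^ 2 := by linarith
      _ = 8 * G ^ 4 := by ring
  have hprod : (16 * (k : ℝ) + 25) * (3 * T * (10 * ((T : ℝ) + 6) * Q ^ 2 + 1) *
        ((8 * ε * C ^ 3 * s * ((T : ℝ) + 6) ^ 4 + P ^ 2) *
          (8 * ((T : ℝ) * (1 + Real.log P)) ^ 2))) ≤
      G * (33 * G ^ 2 * Q ^ 2 * ((96 * G ^ 9 * s / P + P ^ 2) * (8 * G ^ 4))) := by
    have h8 : 0 ≤ 8 * ε * C ^ 3 * s * ((T : ℝ) + 6) ^ 4 + P ^ 2 := by positivity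
    have h9 : 0 ≤ 8 * ((T : ℝ) * (1 + Real.log P)) ^ 2 := by positivity
    have h10 : 0 ≤ 3 * (T : ℝ) * (10 * ((T : ℝ) + 6) * Q ^ 2 + 1) := by positivity
    have h11 : 0 ≤ 96 * G ^ 9 * s / P + P ^ 2 := by positivity
    exact mul_le_mul hkG (mul_le_mul f1 (mul_le_mul f2 f3 h9 h11) (mul_nonneg h8 h9)
      (by positivity)) (mul_nonneg h10 (mul_nonneg h8 h9)) hG0.le
  refine hprod.trans ?_
  -- first part
  have g1 : 50688 * G ^ 17 * Q ^ 2 ≤ P := by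
    have h0 : 32 * k + 468 ≤ 200 * k := by omega
    have h1 : G ^ (32 * k + 468) ≤ G ^ (200 * k) := pow_le_pow_right₀ hG1 h0
    rw [← hP] at h1
    have h2 : G ^ (32 * k + 468) = G * (G ^ 17 * Q ^ 2) := by
      have e0 : 32 * k + 468 = 17 + (16 * k + 225) * 2 + 1 := by ring
      rw [hQ, e0, pow_succ', pow_add, pow_mul]
    have h3 : 0 < G ^ 17 * Q ^ 2 := by positivity
    have h5 : (50688 : ℝ) ≤ G := by linarith only [hG]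
    have h4 : 50688 * (G ^ 17 * Q ^ 2) ≤ G * (G ^ 17 * Q ^ 2) :=
      mul_le_mul_of_nonneg_right h5 h3.le
    rw [h2] at h1
    calc 50688 * G ^ 17 * Q ^ 2 = 50688 * (G ^ 17 * Q ^ 2) := by rw [mul_assoc]
      _ ≤ P := h4.trans h1
  have g2 : 528 * G ^ 8 * Q ^ 2 * P ^ 2 ≤ s := by
    have h1 : G ^ (432 * k + 459) ≤ s := hps _ (le_trans (by omega) (nb64 k))
    have h2 : G ^ (432 * k + 459) = G * (G ^ 8 * Q ^ 2 * P ^ 2) := by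
      have e0 : 432 * k + 459 = 8 + (16 * k + 225) * 2 + 200 * k * 2 + 1 := by ring
      rw [hQ, hP, e0, pow_succ', pow_add, pow_add, pow_mul, pow_mul G (200 * k) 2]
    have h3 : 0 < G ^ 8 * Q ^ 2 * P ^ 2 := by positivity
    have h5 : (528 : ℝ) ≤ G := by linarith only [hG]
    have h4 : 528 * (G ^ 8 * Q ^ 2 * P ^ 2) ≤ G * (G ^ 8 * Q ^ 2 * P ^ 2) :=
      mul_le_mul_of_nonneg_right h5 h3.le
    rw [h2] at h1
    calc 528 * G ^ 8 * Q ^ 2 * P ^ 2 = 528 * (G ^ 8 * Q ^ 2 * P ^ 2) := by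
          rw [mul_assoc, mul_assoc, mul_assoc]
      _ ≤ s := h4.trans h1
  rw [le_div_iff₀ hG0]
  have e : G * (33 * G ^ 2 * Q ^ 2 * ((96 * G ^ 9 * s / P + P ^ 2) * (8 * G ^ 4))) * G =
      (50688 * G ^ 17 * Q ^ 2) / P * s / 2 + (528 * G ^ 8 * Q ^ 2 * P ^ 2) / 2 := by ring
  rw [e]
  have g3 : (50688 * G ^ 17 * Q ^ 2) / P ≤ 1 := by rwa [div_le_one hPpos]
  have g4 : (50688 * G ^ 17 * Q ^ 2) / P * s ≤ 1 * s := mul_le_mul_of_nonneg_right g3 hs0.le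
  linarith

end Pool.Agent.H75H
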