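import Pool.Agent.H75H.NumA

set_option autoImplicit false

/-
Proof sketch (helper75). G = T^4. (16 k + 24) C^2 * 128 ≤ T gives
(16 k + 24) n1 / T ≤ (16 k + 24) C s / T ≤ s / (128 C) ≤ n / 16, so the right side is
≥ 3 n / 16 - (32 k + 48) - s / G ≥ 3 s / (128 C) - T - s / G.
Left side: T^3 ≤ s (`pow_le_s`: G ≤ s), B ≤ s, n1 + B ≤ 2 C s; the powers of G in the first term give
G^(200 (k+1) + 3 (16 k + 24) - 199 (2 k + 2)) = G^(-(150 k + 126)) ≤ 1 / G, first term ≤ 12 C s / G.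
Second term: n1 + T + 7 ≤ 2 C s ≤ s^2 ... log (2 C s) ≤ 2 lam (C ≤ T ≤ s^(1/3)), 1 + 2 lam ≤ T:
≤ 3 (T+1) * 2 C s * T / T^4 ≤ 12 C s / T^2. T, 32 k + 48 ≤ T ≤ s / T^2. As T ≥ 128 * 24 * C^2 all
terms together are < s / (100 C).
-/

namespace Pool.Agent.H75H

/-- the final comparison in one step -/
theorem numC (s C lam n n1 B : ℝ) (T k : ℕ) (hs : s = Real.exp lam) (hC : 1 ≤ C)
    (hT : 1000 ≤ T) (hTC : 128 * C ^ 2 * (16 * (k : ℝ) + 24) ≤ T) (hTl : 10 * lam + 10 ≤ T)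
    (hbig : 3200 * ((k : ℝ) + 2) ^ 2 * Real.log ((T : ℝ) ^ 4) ≤ lam)
    (hn : s / (8 * C) ≤ n) (hn0 : 0 ≤ n1) (hn1 : n1 ≤ C * s) (hB0 : 0 ≤ B) (hB : B ≤ s) :
    6 * (n1 + B) * ((T : ℝ) ^ 4) ^ (200 * (k + 1)) * (((T : ℝ) ^ 4) ^ 3) ^ (16 * k + 24) /
          (((T : ℝ) ^ 4) ^ 199) ^ (2 * k + 2) +
        3 * ((T : ℝ) + 1) * ((n1 + T + 7) * (1 + Real.log (n1 + T + 7))) / (T : ℝ) ^ 4 + T <
      n / 4 - 16 * ((2 * (k : ℝ) + 2) + 1) - 8 * ((2 * (k : ℝ) + 2) + 1) * n1 / T -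
        s / (T : ℝ) ^ 4 := by
  have hT0 : (1000 : ℝ) ≤ T := by exact_mod_cast hT
  have hTp : (0 : ℝ) < T := by linarith
  have hk0 : (0 : ℝ) ≤ k := by positivity
  have hT2 : (T : ℝ) * 1000 ≤ (T : ℝ) ^ 2 := by nlinarith
  have hT3 : (T : ℝ) ^ 2 * 1000 ≤ (T : ℝ) ^ 3 := by nlinarith [sq_nonneg (T : ℝ)]
  have hT4 : (T : ℝ) ^ 3 * 1000 ≤ (T : ℝ) ^ 4 := by
    have : (0 : ℝ) ≤ (T : ℝ) ^ 3 := by positivity
    nlinarith
  obtain ⟨G, hG⟩ : ∃ G : ℝ, G = (T : ℝ) ^ 4 := ⟨_, rfl⟩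
  rw [← hG] at hbig hT4 ⊢
  have hG1 : 1 ≤ G := by linarith
  have hG0 : 0 < G := by linarith
  have hK2 : 1 ≤ (k + 2) ^ 2 := Nat.one_le_pow _ _ (by omega)
  have hGs := pow_le_s s G lam k hs hG1 hbig 1 (by omega)
  rw [pow_one] at hGs
  have hs0 : 0 < s := by linarith
  have hC0 : 0 < C := by linarith
  have hCC : C ≤ C ^ 2 := by nlinarith
  have hC2 : 3072 * C ^ 2 ≤ T := by nlinarith
  have hCs : s ≤ C * s := by nlinarith
  -- first term
  have t1 : 6 * (n1 + B) * G ^ (200 * (k + 1)) * (G ^ 3) ^ (16 * k + 24) /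
      (G ^ 199) ^ (2 * k + 2) ≤ 12 * (C * s) / G := by
    have e1 : (G ^ 3) ^ (16 * k + 24) = G ^ (3 * (16 * k + 24)) := by rw [← pow_mul]
    have e2 : (G ^ 199) ^ (2 * k + 2) =
        G ^ (200 * (k + 1)) * G ^ (3 * (16 * k + 24)) * G ^ (150 * k + 126) := by
      rw [← pow_mul, ← pow_add, ← pow_add]
      exact congrArg (fun m => G ^ m) (by ring)
    rw [e1, e2]
    have h1 : 0 < G ^ (200 * (k + 1)) * G ^ (3 * (16 * k + 24)) := by positivity
    have e3 : 6 * (n1 + B) * G ^ (200 * (k + 1)) * G ^ (3 * (16 * k + 24)) /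
        (G ^ (200 * (k + 1)) * G ^ (3 * (16 * k + 24)) * G ^ (150 * k + 126)) =
        6 * (n1 + B) / G ^ (150 * k + 126) := by
      rw [mul_assoc (6 * (n1 + B)), mul_comm (6 * (n1 + B)), mul_div_mul_left _ _ h1.ne']
    rw [e3]
    have h2 : G ≤ G ^ (150 * k + 126) := le_self_pow₀ hG1 (by omega)
    calc 6 * (n1 + B) / G ^ (150 * k + 126) ≤ 6 * (n1 + B) / G := by
          apply div_le_div_of_nonneg_left (by positivity) hG0 h2
      _ ≤ 12 * (C * s) / G := by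
          apply div_le_div_of_nonneg_right _ hG0.le
          linarith
  -- second term
  have hsum : n1 + T + 7 ≤ 2 * (C * s) := by linarith
  have hsum0 : 0 < n1 + T + 7 := by linarith
  have hlog : 1 + Real.log (n1 + T + 7) ≤ T / 5 := by
    have h1 : Real.log (n1 + T + 7) ≤ Real.log (2 * (C * s)) := Real.log_le_log hsum0 hsum
    have h2 : Real.log (2 * (C * s)) = Real.log (2 * C) + lam := by
      rw [← mul_assoc, Real.log_mul (by positivity) hs0.ne', hs, Real.log_exp]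
    have h3 : Real.log (2 * C) ≤ 2 * C := by
      have := Real.log_le_sub_one_of_pos (show 0 < 2 * C by linarith)
      linarith
    linarith
  have t2 : 3 * ((T : ℝ) + 1) * ((n1 + T + 7) * (1 + Real.log (n1 + T + 7))) / G ≤
      2 * (C * s) / (T : ℝ) ^ 2 := by
    have h1 : 3 * ((T : ℝ) + 1) * ((n1 + T + 7) * (1 + Real.log (n1 + T + 7))) ≤
        3 * ((T : ℝ) + 1) * (2 * (C * s) * (T / 5)) := by
      apply mul_le_mul_of_nonneg_left _ (by positivity)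
      calc (n1 + T + 7) * (1 + Real.log (n1 + T + 7)) ≤ (n1 + T + 7) * (T / 5) :=
            mul_le_mul_of_nonneg_left hlog hsum0.le
        _ ≤ 2 * (C * s) * (T / 5) := mul_le_mul_of_nonneg_right hsum (by positivity)
    have h2 : 3 * ((T : ℝ) + 1) * (2 * (C * s) * (T / 5)) ≤ 2 * (C * s) * (T : ℝ) ^ 2 := by
      have h3 : 3 * ((T : ℝ) + 1) * (T / 5) ≤ (T : ℝ) ^ 2 := by nlinarith
      have h4 : 0 ≤ 2 * (C * s) := by positivity
      calc 3 * ((T : ℝ) + 1) * (2 * (C * s) * (T / 5)) =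
          2 * (C * s) * (3 * ((T : ℝ) + 1) * (T / 5)) := by ring
        _ ≤ 2 * (C * s) * (T : ℝ) ^ 2 := mul_le_mul_of_nonneg_left h3 h4
    rw [div_le_div_iff₀ hG0 (by positivity)]
    calc 3 * ((T : ℝ) + 1) * ((n1 + T + 7) * (1 + Real.log (n1 + T + 7))) * (T : ℝ) ^ 2 ≤
        2 * (C * s) * (T : ℝ) ^ 2 * (T : ℝ) ^ 2 := by
          apply mul_le_mul_of_nonneg_right (h1.trans h2) (by positivity)
      _ = 2 * (C * s) * G := by rw [hG]; ring
  -- comparisons with `s / (1000 C)`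
  have hX : 0 < s / (1000 * C) := by positivity
  have c1 : 12 * (C * s) / G ≤ s / (1000 * C) := by
    rw [div_le_div_iff₀ hG0 (by positivity)]
    have : 12000 * C ^ 2 ≤ G := by nlinarith
    calc 12 * (C * s) * (1000 * C) = s * (12000 * C ^ 2) := by ring
      _ ≤ s * G := mul_le_mul_of_nonneg_left this hs0.le
  have c2 : 2 * (C * s) / (T : ℝ) ^ 2 ≤ s / (1000 * C) := by
    rw [div_le_div_iff₀ (by positivity) (by positivity)]
    have : 2000 * C ^ 2 ≤ (T : ℝ) ^ 2 := by nlinarith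
    calc 2 * (C * s) * (1000 * C) = s * (2000 * C ^ 2) := by ring
      _ ≤ s * (T : ℝ) ^ 2 := mul_le_mul_of_nonneg_left this hs0.le
  have c3 : (T : ℝ) ≤ s / (1000 * C) := by
    rw [le_div_iff₀ (by positivity)]
    have h1 : 1000 * C ≤ (T : ℝ) := by nlinarith
    calc (T : ℝ) * (1000 * C) ≤ T * T := mul_le_mul_of_nonneg_left h1 hTp.le
      _ ≤ G := by nlinarith
      _ ≤ s := hGs
  have hkT : 16 * (k : ℝ) + 24 ≤ T / 128 := by nlinarith
  have c4 : 16 * ((2 * (k : ℝ) + 2) + 1) ≤ s / (1000 * C) := by linarith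
  have c5 : s / G ≤ s / (1000 * C) := by
    apply div_le_div_of_nonneg_left hs0.le (by positivity)
    nlinarith
  have c6 : 8 * ((2 * (k : ℝ) + 2) + 1) * n1 / T ≤ s / (128 * C) := by
    rw [div_le_div_iff₀ hTp (by positivity)]
    calc 8 * ((2 * (k : ℝ) + 2) + 1) * n1 * (128 * C) =
        (128 * C * (16 * (k : ℝ) + 24)) * n1 := by ring
      _ ≤ (128 * C * (16 * (k : ℝ) + 24)) * (C * s) := by
          apply mul_le_mul_of_nonneg_left hn1 (by positivity)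
      _ = s * (128 * C ^ 2 * (16 * (k : ℝ) + 24)) := by ring
      _ ≤ s * T := mul_le_mul_of_nonneg_left hTC hs0.le
  have c7 : s / (32 * C) ≤ n / 4 := by
    have : s / (32 * C) = s / (8 * C) / 4 := by
      field_simp
      norm_num
    rw [this]
    linarith
  have y1 : s / (1000 * C) = (s / C) / 1000 := by
    field_simp
  have y2 : s / (128 * C) = (s / C) / 128 := by
    field_simp
  have y3 : s / (32 * C) = (s / C) / 32 := by
    field_simp
  have y0 : 0 < s / C := by positivity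
  rw [y1] at c1 c2 c3 c4 c5
  rw [y2] at c6
  rw [y3] at c7
  linarith

end Pool.Agent.H75H
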