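import Pool.Agent.H75H.Defs

set_option autoImplicit false

/-
Proof sketch (helper75). If not typ then Tp < ∑_{o ≤ T} (number of divisors of x (i+o)); so
#bad * Tp ≤ ∑_{i < n1} ∑_{o ≤ T} d(x (i+o)) = ∑_o ∑_i. For fixed o: x (i+o) is in Icc 1 K,
K = n1 + T + 7 (`x_le`), and a value m is taken by at most 3 indices (n = m-1, m-3 or m-7 as
x n = n + 1 + b (n+1), b in {0, 2, 6}), so the inner sum is ≤ 3 ∑_{m ∈ Icc 1 K} d(m), and
∑_{m ≤ K} d(m) = ∑_{d ≤ K} (number of multiples of d in Icc 1 K) ≤ ∑_{d ≤ K} K / d ≤ K (1 + log K).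
-/

namespace Pool.Agent.H75H

open Pool.Agent.H5.GR

private theorem sum_card_divisors27 (K : ℕ) :
    ((∑ m ∈ Finset.Icc 1 K, (Nat.divisors m).card : ℕ) : ℝ) ≤ (K : ℝ) * (1 + Real.log K) := by
  have h1 : ∀ m ∈ Finset.Icc 1 K, (Nat.divisors m).card =
      ((Finset.Icc 1 K).filter (fun d => d ∣ m)).card := by
    intro m hm
    rw [Finset.mem_Icc] at hm
    congr 1
    ext d
    simp only [Nat.mem_divisors, Finset.mem_filter, Finset.mem_Icc]
    constructor
    · rintro ⟨h, _⟩
      exact ⟨⟨Nat.pos_of_dvd_of_pos h (by omega), (Nat.le_of_dvd (by omega) h).trans hm.2⟩, h⟩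
    · rintro ⟨_, h⟩
      exact ⟨h, by omega⟩
  have h2 : ∑ m ∈ Finset.Icc 1 K, (Nat.divisors m).card = ∑ d ∈ Finset.Icc 1 K, K / d := by
    rw [Finset.sum_congr rfl h1]
    simp only [Finset.card_filter]
    rw [Finset.sum_comm]
    apply Finset.sum_congr rfl
    intro d _
    rw [← Finset.card_filter]
    have h3 := Nat.Ioc_filter_dvd_card_eq_div K d
    rw [← h3]
    congr 1
  rw [h2]
  push_cast
  have h4 : ∑ d ∈ Finset.Icc 1 K, ((K / d : ℕ) : ℝ) ≤ ∑ d ∈ Finset.Icc 1 K, (K : ℝ) * (d : ℝ)⁻¹ := by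
    apply Finset.sum_le_sum
    intro d _
    rw [← div_eq_mul_inv]
    exact Nat.cast_div_le
  refine h4.trans ?_
  rw [← Finset.mul_sum]
  apply mul_le_mul_of_nonneg_left _ (Nat.cast_nonneg K)
  have h5 := harmonic_le_one_add_log K
  rw [harmonic_eq_sum_Icc] at h5
  push_cast at h5
  exact h5

private theorem sum_shift27 (f : ℕ → ℕ) (n1 c K : ℕ) (hc : 1 ≤ c) (hK : n1 + c ≤ K + 1) :
    ∑ i ∈ Finset.range n1, f (i + c) ≤ ∑ m ∈ Finset.Icc 1 K, f m := by
  have h1 : ∑ i ∈ Finset.range n1, f (i + c) =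
      ∑ m ∈ (Finset.range n1).map (addRightEmbedding c), f m := by
    rw [Finset.sum_map]
    rfl
  rw [h1]
  apply Finset.sum_le_sum_of_subset
  intro m hm
  rw [Finset.mem_map] at hm
  obtain ⟨i, hi, rfl⟩ := hm
  rw [Finset.mem_range] at hi
  simp only [addRightEmbedding_apply, Finset.mem_Icc]
  omega

private theorem card_x_le27 (n : ℕ) : (Nat.divisors (x n)).card ≤
    (Nat.divisors (n + 1)).card + (Nat.divisors (n + 3)).card + (Nat.divisors (n + 7)).card := by
  unfold x
  rcases b_cases (n + 1) with h | h | h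
  · rw [h.2]
    exact (Nat.le_add_right _ _).trans (Nat.le_add_right _ _)
  · rw [h.2]
    show (Nat.divisors (n + 3)).card ≤ _
    omega
  · rw [h.2]
    show (Nat.divisors (n + 7)).card ≤ _
    omega

open Classical in
/-- few indices are not `typ` -/
theorem typ_count (n1 T Tp : ℕ) :
    (((Finset.range n1).filter (fun i => ¬ typ T Tp i)).card : ℝ) * Tp ≤
      3 * ((T : ℝ) + 1) * (((n1 : ℝ) + T + 7) * (1 + Real.log ((n1 : ℝ) + T + 7))) := by
  have hA : ((Finset.range n1).filter (fun i => ¬ typ T Tp i)).card * Tp ≤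
      ∑ i ∈ Finset.range n1, ∑ o ∈ Finset.range (T + 1), (Nat.divisors (x (i + o))).card := by
    calc ((Finset.range n1).filter (fun i => ¬ typ T Tp i)).card * Tp
        = ∑ i ∈ (Finset.range n1).filter (fun i => ¬ typ T Tp i), Tp := by
          rw [Finset.sum_const, smul_eq_mul]
      _ ≤ ∑ i ∈ (Finset.range n1).filter (fun i => ¬ typ T Tp i),
            ∑ o ∈ Finset.range (T + 1), (Nat.divisors (x (i + o))).card := by
          apply Finset.sum_le_sum
          intro i hi
          have h := (Finset.mem_filter.mp hi).2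
          unfold typ at h
          omega
      _ ≤ _ := Finset.sum_le_sum_of_subset (Finset.filter_subset _ _)
  have hB : ∑ i ∈ Finset.range n1, ∑ o ∈ Finset.range (T + 1), (Nat.divisors (x (i + o))).card ≤
      (T + 1) * (3 * ∑ m ∈ Finset.Icc 1 (n1 + T + 7), (Nat.divisors m).card) := by
    rw [Finset.sum_comm]
    have h1 : ∀ o ∈ Finset.range (T + 1),
        ∑ i ∈ Finset.range n1, (Nat.divisors (x (i + o))).card ≤
          3 * ∑ m ∈ Finset.Icc 1 (n1 + T + 7), (Nat.divisors m).card := by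
      intro o ho
      rw [Finset.mem_range] at ho
      have h2 : ∑ i ∈ Finset.range n1, (Nat.divisors (x (i + o))).card ≤
          ∑ i ∈ Finset.range n1, ((Nat.divisors (i + (o + 1))).card +
            (Nat.divisors (i + (o + 3))).card + (Nat.divisors (i + (o + 7))).card) := by
        apply Finset.sum_le_sum
        intro i _
        exact card_x_le27 (i + o)
      refine h2.trans ?_
      rw [Finset.sum_add_distrib, Finset.sum_add_distrib]
      have e1 := sum_shift27 (fun m => (Nat.divisors m).card) n1 (o + 1) (n1 + T + 7)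
        (by omega) (by omega)
      have e2 := sum_shift27 (fun m => (Nat.divisors m).card) n1 (o + 3) (n1 + T + 7)
        (by omega) (by omega)
      have e3 := sum_shift27 (fun m => (Nat.divisors m).card) n1 (o + 7) (n1 + T + 7)
        (by omega) (by omega)
      omega
    have h3 := Finset.sum_le_sum h1
    rw [Finset.sum_const, Finset.card_range, smul_eq_mul] at h3
    exact h3
  have hC := sum_card_divisors27 (n1 + T + 7)
  have hD : (((Finset.range n1).filter (fun i => ¬ typ T Tp i)).card : ℝ) * Tp ≤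
      ((T : ℝ) + 1) * (3 *
        ((∑ m ∈ Finset.Icc 1 (n1 + T + 7), (Nat.divisors m).card : ℕ) : ℝ)) := by
    exact_mod_cast hA.trans hB
  refine hD.trans ?_
  have hK : ((n1 + T + 7 : ℕ) : ℝ) = (n1 : ℝ) + T + 7 := by push_cast; ring
  rw [hK] at hC
  have hT : (0 : ℝ) ≤ (T : ℝ) + 1 := by positivity
  calc ((T : ℝ) + 1) * (3 *
        ((∑ m ∈ Finset.Icc 1 (n1 + T + 7), (Nat.divisors m).card : ℕ) : ℝ))
      ≤ ((T : ℝ) + 1) * (3 * (((n1 : ℝ) + T + 7) * (1 + Real.log ((n1 : ℝ) + T + 7)))) := by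
        apply mul_le_mul_of_nonneg_left _ hT
        apply mul_le_mul_of_nonneg_left hC (by norm_num)
    _ = _ := by ring

end Pool.Agent.H75H
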