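import Pool.Agent.H75G.RareCard
import Pool.Agent.H75H.AllCount
import Pool.Agent.H75H.TypCount
import Pool.Agent.H75H.Enum
import Pool.Agent.H75H.NumA
import Pool.Agent.H75H.NumB
import Pool.Agent.H75H.NumC

set_option autoImplicit false

namespace Pool.Agent.H75H

open Pool.Agent.H5.GR
open Pool.Agent.H75G

/-- chains of elements of a level set are chains in the sense of `chn` -/
theorem chC_chn (N n0 n1 P1 P Q : ℕ) (D : Finset ℕ)
    (hD : ∀ i, i ∈ D ↔ (n0 ≤ i ∧ i < n1) ∧ P1 ≤ v N i ∧ v N i ≤ P) :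
    ∀ m c μ R, n0 ≤ c → chC (lev N n0 n1 (Q : ℝ)) D m c μ R → chn N Q P1 P m c μ R := by
  intro m
  induction m with
  | zero => intro c μ R _ h; exact h
  | succ m ih =>
    intro c μ R hc h
    obtain ⟨c', hc', h1, h2, h3, h4⟩ := h
    rw [mem_lev] at hc'
    refine ⟨c', h1, h2, by exact_mod_cast hc'.2, ?_, ?_⟩
    · intro l hl1 hl2
      by_contra hcon
      push Not at hcon
      exact h3 l ((mem_lev N n0 n1 _ l).mpr ⟨⟨by omega, by omega⟩, by exact_mod_cast hcon⟩)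
        ⟨hl1, hl2⟩
    · have h5 := ih c' _ R (by omega) h4
      by_cases hm : c' ∈ D
      · rw [if_pos hm] at h5
        rw [if_pos ((hD c').mp hm).2]
        exact h5
      · rw [if_neg hm] at h5
        rw [if_neg (fun h6 => hm ((hD c').mpr ⟨hc'.1, h6⟩))]
        exact h5

/-- from the threshold `T ^ (800 k)` to the threshold `T ^ (800 (k + 1))` the number of indices
doubles -/
theorem step (N n0 n1 : ℕ) (s C lam : ℝ) (hw : Win N n0 n1 s C) (hn1 : (n1 : ℝ) ≤ C * s)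
    (hs : s = Real.exp lam) (T k : ℕ) (hT : 1000 ≤ T)
    (hTC : 128 * C ^ 2 * (16 * (k : ℝ) + 24) ≤ T) (hTl : 10 * lam + 10 ≤ T) (hk : 3 ≤ k)
    (hbig : 3200 * ((k : ℝ) + 2) ^ 2 * Real.log ((T : ℝ) ^ 4) ≤ lam)
    (hS : s / (8 * C) ≤ ((lev N n0 n1 (((T : ℝ) ^ 4) ^ (200 * k))).card : ℝ)) :
    2 * ((lev N n0 n1 (((T : ℝ) ^ 4) ^ (200 * k))).card : ℝ) ≤
      ((lev N n0 n1 (((T : ℝ) ^ 4) ^ (200 * (k + 1)))).card : ℝ) := by
  classical
  by_contra hcon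
  push Not at hcon
  have hC := hw.hC
  have hC0 : 0 < C := by linarith
  have hC2 : 1 ≤ C ^ 2 := one_le_pow₀ hC
  have hT0 : (1000 : ℝ) ≤ T := by exact_mod_cast hT
  have hk0 : (0 : ℝ) ≤ k := by positivity
  have hs0 : 0 < s := by rw [hs]; exact Real.exp_pos _
  -- simple facts on `G = T ^ 4`
  have hT2 : (T : ℝ) * 1000 ≤ (T : ℝ) ^ 2 := by nlinarith
  have hT3 : (T : ℝ) ^ 2 * 1000 ≤ (T : ℝ) ^ 3 := by nlinarith [sq_nonneg (T : ℝ)]
  have hT4 : (T : ℝ) ^ 3 * 1000 ≤ (T : ℝ) ^ 4 := by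
    have : (0 : ℝ) ≤ (T : ℝ) ^ 3 := by positivity
    nlinarith
  have hG1 : (1000000 : ℝ) ≤ (T : ℝ) ^ 4 := by linarith
  have hG2 : 100 * ((T : ℝ) + 6) ≤ (T : ℝ) ^ 4 := by linarith
  have hCT : C ^ 2 * 3072 ≤ T := by nlinarith
  have hG3 : 48 * C ≤ (T : ℝ) ^ 4 := by nlinarith
  have hG4 : 1 + lam ≤ (T : ℝ) ^ 4 := by
    rcases le_or_gt 0 lam with h | h <;> linarith
  have hG5 : 16 * (k : ℝ) + 25 ≤ (T : ℝ) ^ 4 := by nlinarith
  -- natural numbers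
  obtain ⟨P, hP⟩ : ∃ P : ℕ, P = (T ^ 4) ^ (200 * k) := ⟨_, rfl⟩
  obtain ⟨Q, hQ⟩ : ∃ Q : ℕ, Q = (T ^ 4) ^ (200 * (k + 1)) := ⟨_, rfl⟩
  obtain ⟨P1, hP1⟩ : ∃ P1 : ℕ, P1 = (T ^ 4) ^ (16 * k + 225) := ⟨_, rfl⟩
  have hPr : (P : ℝ) = ((T : ℝ) ^ 4) ^ (200 * k) := by rw [hP]; push_cast; ring
  have hQr : (Q : ℝ) = ((T : ℝ) ^ 4) ^ (200 * (k + 1)) := by rw [hQ]; push_cast; ring
  have hP1r : (P1 : ℝ) = ((T : ℝ) ^ 4) ^ (16 * k + 225) := by rw [hP1]; push_cast; ring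
  have hQ1 : 1 ≤ Q := by rw [hQ]; exact Nat.one_le_pow _ _ (by positivity)
  have hP11 : 1 ≤ P1 := by rw [hP1]; exact Nat.one_le_pow _ _ (by positivity)
  have hPQ : P ≤ Q := by
    rw [hP, hQ]
    exact Nat.pow_le_pow_right (by positivity) (by omega)
  rw [← hPr] at hS hcon
  rw [← hQr] at hcon
  -- the numerical facts
  obtain ⟨a1, a2, a3⟩ := numA s C ((T : ℝ) ^ 4) lam T k hs hC hG1 hG2 hG3 hbig
  obtain ⟨b1, b2, b3, b4, b5, b6⟩ := numB s C ((T : ℝ) ^ 4) lam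
    (2 * T / ((T : ℝ) ^ 4) ^ (200 * k) + 10 * ((T : ℝ) + 48) ^ 2 / s) T k hs hC hG1 hG2 hG3 hG4
    hG5 hk hbig rfl
  rw [← hQr] at a1 a2 a3
  rw [← hPr] at a3 b2 b3 b5 b6
  rw [← hP1r] at a3 b1 b2 b6
  set n : ℝ := ((lev N n0 n1 (Q : ℝ)).card : ℝ) with hndef
  have hSn : ((lev N n0 n1 (P : ℝ)).card : ℝ) ≤ n := by
    rw [hndef]
    have : lev N n0 n1 (P : ℝ) ⊆ lev N n0 n1 (Q : ℝ) := by
      intro i hi
      rw [mem_lev] at hi ⊢
      exact ⟨hi.1, hi.2.trans (by exact_mod_cast hPQ)⟩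
    exact_mod_cast Finset.card_le_card this
  -- rare pairs
  have hbad := rareK_card N n0 n1 s C hw T 0 (by omega) (P1 : ℝ) (P : ℝ) b1 b2 b3 b4 _ rfl b5
  norm_num at hbad
  have hbad2 : (16 * (k : ℝ) + 25) * ((rareK N n0 n1 T 0 (P1 : ℝ) (P : ℝ)).card : ℝ) ≤
      s / (T : ℝ) ^ 4 := by
    refine le_trans ?_ b6
    apply mul_le_mul_of_nonneg_left _ (by positivity)
    exact hbad
  -- the chains
  obtain ⟨D, hDdef⟩ : ∃ D : Finset ℕ, D = (lev N n0 n1 (P : ℝ)).filter (fun i => P1 ≤ v N i) :=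
    ⟨_, rfl⟩
  have hDmem : ∀ i, i ∈ D ↔ (n0 ≤ i ∧ i < n1) ∧ P1 ≤ v N i ∧ v N i ≤ P := by
    intro i
    rw [hDdef, Finset.mem_filter, mem_lev]
    constructor
    · rintro ⟨⟨h1, h2⟩, h3⟩
      exact ⟨h1, h3, by exact_mod_cast h2⟩
    · rintro ⟨h1, h3, h2⟩
      exact ⟨⟨h1, by exact_mod_cast h2⟩, h3⟩
  have henum := enum (lev N n0 n1 (Q : ℝ)) (lev N n0 n1 (P : ℝ)) D
    (rareK N n0 n1 T 0 (P1 : ℝ) (P : ℝ)) (by
      intro i hi
      rw [mem_lev] at hi ⊢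
      exact ⟨hi.1, hi.2.trans (by exact_mod_cast hPQ)⟩)
    (by rw [hDdef]; exact Finset.filter_subset _ _) n1 T (2 * k + 2) (by omega)
    (fun i hi => ((mem_lev _ _ _ _ _).mp hi).1.2)
    (by
      intro a ha b hb hab hbT hno haD hbD
      rw [mem_lev] at ha hb
      have ha1 : v N a < P1 := by
        by_contra h
        push Not at h
        exact haD ((hDmem a).mpr ⟨ha.1, h, by exact_mod_cast ha.2⟩)
      have hb1 : v N b < P1 := by
        by_contra h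
        push Not at h
        exact hbD ((hDmem b).mpr ⟨hb.1, h, by exact_mod_cast hb.2⟩)
      unfold rareK
      rw [Finset.mem_filter, Finset.mem_Ico]
      refine ⟨ha.1, b, hab, hb.1.2, hbT, by exact_mod_cast ha1.le, by exact_mod_cast hb1.le, ?_⟩
      rw [Nat.le_zero, Finset.card_eq_zero, Finset.filter_eq_empty_iff]
      intro l hl hvl
      rw [Finset.mem_Ioo] at hl
      exact hno l ((mem_lev _ _ _ _ _).mpr ⟨⟨by omega, by omega⟩, hvl⟩) ⟨hl.1, hl.2⟩)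
    (by
      have h1 : ((lev N n0 n1 (Q : ℝ)).card : ℝ) < 2 * ((lev N n0 n1 (P : ℝ)).card : ℝ) := hcon
      exact_mod_cast h1.le)
  -- splitting the good starts
  have hsub : (lev N n0 n1 (Q : ℝ)).filter
      (fun i => chC (lev N n0 n1 (Q : ℝ)) D (8 * (2 * k + 2 + 1)) i (2 * k + 2) (i + T)) ⊆
      ((Finset.Ico n0 n1).filter (fun i => i + T < n1 ∧ typ T (T ^ 4) i ∧ v N i ≤ Q ∧
        chn N Q P1 P (16 * k + 24) i (2 * k + 2) (i + T))) ∪
      (((Finset.range n1).filter (fun i => ¬ typ T (T ^ 4) i)) ∪ Finset.Ico (n1 - T) n1) := by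
    intro i hi
    rw [Finset.mem_filter, mem_lev] at hi
    rw [Finset.mem_union, Finset.mem_union, Finset.mem_filter, Finset.mem_filter,
      Finset.mem_Ico, Finset.mem_Ico, Finset.mem_range]
    by_cases h1 : i + T < n1
    · by_cases h2 : typ T (T ^ 4) i
      · left
        refine ⟨hi.1.1, h1, h2, by exact_mod_cast hi.1.2, ?_⟩
        have h3 := chC_chn N n0 n1 P1 P Q D hDmem _ i _ _ hi.1.1.1 hi.2
        have h4 : 8 * (2 * k + 2 + 1) = 16 * k + 24 := by ring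
        rw [h4] at h3
        exact h3
      · right; left
        exact ⟨hi.1.1.2, h2⟩
    · right; right
      exact ⟨by omega, hi.1.1.2⟩
  have hcardsub := (Finset.card_le_card hsub).trans
    ((Finset.card_union_le _ _).trans (Nat.add_le_add_left (Finset.card_union_le _ _) _))
  have hall := all_count N n0 n1 s C hw (Q ^ (16 * k + 25)) T Q P1 P (T ^ 4)
    ((T + 6) ^ (16 * k + 25)) (16 * k + 24) (2 * k + 2) (((T : ℝ) ^ 4) ^ 199) (((T : ℝ) ^ 4) ^ 3)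
    hQ1 a1 (by push_cast; exact a2) hP11 (one_le_pow₀ (by linarith)) le_rfl le_rfl
    (by push_cast; exact a3)
  have htyp := typ_count n1 T (T ^ 4)
  have hIco : (((Finset.Ico (n1 - T) n1).card : ℕ) : ℝ) ≤ T := by
    rw [Nat.card_Ico]
    exact_mod_cast (by omega : n1 - (n1 - T) ≤ T)
  have hT4pos : (0 : ℝ) < (T : ℝ) ^ 4 := by linarith
  have htyp2 : ((((Finset.range n1).filter (fun i => ¬ typ T (T ^ 4) i)).card : ℕ) : ℝ) ≤
      3 * ((T : ℝ) + 1) * (((n1 : ℝ) + T + 7) * (1 + Real.log ((n1 : ℝ) + T + 7))) /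
        (T : ℝ) ^ 4 := by
    rw [le_div_iff₀ hT4pos]
    push_cast at htyp
    exact htyp
  have hBs : (((Q ^ (16 * k + 25) : ℕ) : ℝ)) ≤ s := by
    have hj : 200 * (k + 1) * (16 * k + 25) ≤ 3200 * (k + 2) ^ 2 := by
      ring_nf
      omega
    rw [Nat.cast_pow, hQr, ← pow_mul]
    exact pow_le_s s _ lam k hs (by linarith) hbig _ hj
  have hC' := numC s C lam n n1 (((Q ^ (16 * k + 25) : ℕ) : ℝ)) T k hs hC hT hTC hTl hbig
    (hS.trans hSn) (by positivity) hn1 (by positivity) hBs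
  have hcs : ((((lev N n0 n1 (Q : ℝ)).filter
      (fun i => chC (lev N n0 n1 (Q : ℝ)) D (8 * (2 * k + 2 + 1)) i (2 * k + 2) (i + T))).card : ℕ) :
        ℝ) ≤
      ((((Finset.Ico n0 n1).filter (fun i => i + T < n1 ∧ typ T (T ^ 4) i ∧ v N i ≤ Q ∧
        chn N Q P1 P (16 * k + 24) i (2 * k + 2) (i + T))).card : ℕ) : ℝ) +
      (((((Finset.range n1).filter (fun i => ¬ typ T (T ^ 4) i)).card : ℕ) : ℝ) +
        (((Finset.Ico (n1 - T) n1).card : ℕ) : ℝ)) := by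
    exact_mod_cast hcardsub
  rw [hQr] at hall
  have he : ((2 * k + 2 : ℕ) : ℝ) = 2 * (k : ℝ) + 2 := by push_cast; ring
  rw [he] at henum
  have hb3 : (8 * ((2 * (k : ℝ) + 2) + 1) + 1) *
      ((rareK N n0 n1 T 0 (P1 : ℝ) (P : ℝ)).card : ℝ) ≤ s / (T : ℝ) ^ 4 := by
    have : 8 * ((2 * (k : ℝ) + 2) + 1) + 1 = 16 * (k : ℝ) + 25 := by ring
    rw [this]
    exact hbad2
  linarith

end Pool.Agent.H75H
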